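import Mathlib

set_option autoImplicit false

/-!
# Critical sets for list colourings with four colours
-/

namespace Pool.Agent.R740.EF

open Finset

theorem four_lists {C : Type} (A B D E : Finset C) (hA : 2 ≤ A.card) (hB : 2 ≤ B.card)
    (hD : 2 ≤ D.card) (hE : 2 ≤ E.card) :
    ∃ a ∈ A, ∃ b ∈ B, ∃ c ∈ D, ∃ d ∈ E, a ≠ b ∧ b ≠ c ∧ c ≠ d ∧ d ≠ a := by
  classical
  by_cases h1 : A ⊆ B
  swap
  · obtain ⟨x, hx, hx'⟩ := not_subset.1 h1
    obtain ⟨d, hd, hdx⟩ := exists_mem_ne hE x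
    obtain ⟨c, hc, hcd⟩ := exists_mem_ne hD d
    obtain ⟨b, hb, hbc⟩ := exists_mem_ne hB c
    exact ⟨x, hx, b, hb, c, hc, d, hd, fun h => hx' (h ▸ hb), hbc, hcd, hdx⟩
  by_cases h2 : B ⊆ D
  swap
  · obtain ⟨x, hx, hx'⟩ := not_subset.1 h2
    obtain ⟨a, ha, hax⟩ := exists_mem_ne hA x
    obtain ⟨d, hd, hda⟩ := exists_mem_ne hE a
    obtain ⟨c, hc, hcd⟩ := exists_mem_ne hD d
    exact ⟨a, ha, x, hx, c, hc, d, hd, hax, fun h => hx' (h ▸ hc), hcd, hda⟩
  by_cases h3 : D ⊆ E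
  swap
  · obtain ⟨x, hx, hx'⟩ := not_subset.1 h3
    obtain ⟨b, hb, hbx⟩ := exists_mem_ne hB x
    obtain ⟨a, ha, hab⟩ := exists_mem_ne hA b
    obtain ⟨d, hd, hda⟩ := exists_mem_ne hE a
    exact ⟨a, ha, b, hb, x, hx, d, hd, hab, hbx, fun h => hx' (h ▸ hd), hda⟩
  by_cases h4 : E ⊆ A
  swap
  · obtain ⟨x, hx, hx'⟩ := not_subset.1 h4
    obtain ⟨c, hc, hcx⟩ := exists_mem_ne hD x
    obtain ⟨b, hb, hbc⟩ := exists_mem_ne hB c
    obtain ⟨a, ha, hab⟩ := exists_mem_ne hA b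
    exact ⟨a, ha, b, hb, c, hc, x, hx, hab, hbc, hcx, fun h => hx' (h ▸ ha)⟩
  obtain ⟨a, b, ha, hb, hab⟩ := one_lt_card_iff.1 hA
  exact ⟨a, ha, b, h1 hb, a, h2 (h1 ha), b, h3 (h2 (h1 hb)), hab, hab.symm, hab, hab.symm⟩

variable {V : Type} [DecidableEq V] {G : SimpleGraph V} {C : Type}

/-- the vertices of `S` have a proper colouring from their lists -/
def PC (G : SimpleGraph V) (L : V → Finset C) (S : Finset V) : Prop :=
  ∃ c : V → C, (∀ v ∈ S, c v ∈ L v) ∧ ∀ u ∈ S, ∀ v ∈ S, G.Adj u v → c u ≠ c v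

theorem exists_critical [Fintype V] {L : V → Finset C} (h : ¬ PC G L univ) :
    ∃ S, ¬ PC G L S ∧ ∀ T ⊂ S, PC G L T := by
  obtain ⟨S, hS, hmin⟩ := (Finset.isWellFounded_ssubset (α := V)).wf.has_min
    {S | ¬ PC G L S} ⟨univ, h⟩
  refine ⟨S, hS, fun T hT => ?_⟩
  by_contra hcon
  exact hmin T hcon hT

variable [DecidableRel G.Adj]

theorem critical_degree {L : V → Finset C} (hL : ∀ v, 4 ≤ (L v).card) {S : Finset V}
    (hS : ¬ PC G L S) (hmin : ∀ T ⊂ S, PC G L T) {v : V} (hv : v ∈ S) :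
    4 ≤ (S.filter (G.Adj v)).card := by
  classical
  by_contra hcon
  push Not at hcon
  obtain ⟨c, hc, hc'⟩ := hmin _ (erase_ssubset hv)
  have h1 : ((S.filter (G.Adj v)).image c).card < (L v).card :=
    (card_image_le.trans_lt hcon).trans_le (hL v)
  obtain ⟨x, hx, hx'⟩ := exists_mem_notMem_of_card_lt_card h1
  have hx'' : ∀ w ∈ S, G.Adj v w → c w ≠ x := by
    intro w hw hvw h
    exact hx' (mem_image.2 ⟨w, mem_filter.2 ⟨hw, hvw⟩, h⟩)
  apply hS
  refine ⟨Function.update c v x, ?_, ?_⟩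
  · intro w hw
    rcases eq_or_ne w v with rfl | hwv
    · rw [Function.update_self]
      exact hx
    · rw [Function.update_of_ne hwv]
      exact hc w (mem_erase.2 ⟨hwv, hw⟩)
  · intro u hu w hw huw
    rcases eq_or_ne u v with rfl | huv
    · have hwu : w ≠ u := huw.ne'
      rw [Function.update_self, Function.update_of_ne hwu]
      exact (hx'' w hw huw).symm
    · rw [Function.update_of_ne huv]
      rcases eq_or_ne w v with rfl | hwv
      · rw [Function.update_self]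
        exact hx'' u hu huw.symm
      · rw [Function.update_of_ne hwv]
        exact hc' u (mem_erase.2 ⟨huv, hu⟩) w (mem_erase.2 ⟨hwv, hw⟩) huw

/-- the colours left for a vertex with at most four neighbours, two of which are in `Q` -/
theorem left_colours {L : V → Finset C} (hL : ∀ v, 4 ≤ (L v).card) {S Q : Finset V} {v p q : V}
    (hp : p ∈ Q) (hq : q ∈ Q) (hpq : p ≠ q) (hpS : p ∈ S) (hqS : q ∈ S) (hvp : G.Adj v p)
    (hvq : G.Adj v q) (hd : (S.filter (G.Adj v)).card ≤ 4) (c : V → C) [DecidableEq C] :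
    2 ≤ (L v \ ((S \ Q).filter (G.Adj v)).image c).card := by
  have h1 : ((S \ Q).filter (G.Adj v)).card ≤ 2 := by
    have h2 : (S \ Q).filter (G.Adj v) ⊆ (S.filter (G.Adj v)) \ {p, q} := by
      intro w hw
      rw [mem_filter, mem_sdiff] at hw
      rw [mem_sdiff, mem_filter, mem_insert, mem_singleton, not_or]
      exact ⟨⟨hw.1.1, hw.2⟩, fun h => hw.1.2 (h ▸ hp), fun h => hw.1.2 (h ▸ hq)⟩
    have h3 := card_le_card h2
    have h4 : ({p, q} : Finset V) ⊆ S.filter (G.Adj v) := by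
      intro w hw
      rw [mem_insert, mem_singleton] at hw
      rw [mem_filter]
      rcases hw with rfl | rfl
      · exact ⟨hpS, hvp⟩
      · exact ⟨hqS, hvq⟩
    rw [card_sdiff_of_subset h4, card_pair hpq] at h3
    omega
  have h5 := le_card_sdiff (((S \ Q).filter (G.Adj v)).image c) (L v)
  have h6 := card_image_le (s := (S \ Q).filter (G.Adj v)) (f := c)
  have := hL v
  omega

theorem critical_quad {L : V → Finset C} (hL : ∀ v, 4 ≤ (L v).card) {S : Finset V}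
    (hS : ¬ PC G L S) (hmin : ∀ T ⊂ S, PC G L T) {a b c d : V} (ha : a ∈ S) (hb : b ∈ S)
    (hc : c ∈ S) (hd : d ∈ S) (hab : G.Adj a b) (hbc : G.Adj b c) (hcd : G.Adj c d)
    (hda : G.Adj d a) (hac : a ≠ c) (hbd : b ≠ d) (hac' : ¬ G.Adj a c) (hbd' : ¬ G.Adj b d)
    (h4a : (S.filter (G.Adj a)).card ≤ 4) (h4b : (S.filter (G.Adj b)).card ≤ 4)
    (h4c : (S.filter (G.Adj c)).card ≤ 4) (h4d : (S.filter (G.Adj d)).card ≤ 4) : False := by
  classical
  set Q : Finset V := {a, b, c, d} with hQ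
  have haQ : a ∈ Q := by simp [hQ]
  have hbQ : b ∈ Q := by simp [hQ]
  have hcQ : c ∈ Q := by simp [hQ]
  have hdQ : d ∈ Q := by simp [hQ]
  have hT : S \ Q ⊂ S := by
    refine ⟨sdiff_subset, fun h => ?_⟩
    exact (mem_sdiff.1 (h ha)).2 haQ
  obtain ⟨k, hk, hk'⟩ := hmin _ hT
  obtain ⟨xa, hxa, xb, hxb, xc, hxc, xd, hxd, n1, n2, n3, n4⟩ := four_lists _ _ _ _
    (left_colours hL hbQ hdQ hbd hb hd hab hda.symm h4a k)
    (left_colours hL haQ hcQ hac ha hc hab.symm hbc h4b k)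
    (left_colours hL hbQ hdQ hbd hb hd hbc.symm hcd h4c k)
    (left_colours hL haQ hcQ hac ha hc hda hcd.symm h4d k)
  have nab := hab.ne
  have nbc := hbc.ne
  have ncd := hcd.ne
  have nda := hda.ne
  set f : V → C := fun v => if v = a then xa else if v = b then xb else if v = c then xc else
    if v = d then xd else k v with hf
  have fa : f a = xa := by simp [hf]
  have fb : f b = xb := by simp [hf, nab.symm]
  have fc : f c = xc := by simp [hf, hac.symm, nbc.symm]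
  have fd : f d = xd := by simp [hf, nda, hbd.symm, ncd.symm]
  have fo : ∀ v, v ∉ Q → f v = k v := by
    intro v hv
    simp only [hQ, mem_insert, mem_singleton, not_or] at hv
    simp [hf, hv.1, hv.2.1, hv.2.2.1, hv.2.2.2]
  have hQc : ∀ v ∈ Q, v = a ∨ v = b ∨ v = c ∨ v = d := by
    intro v hv
    simpa [hQ] using hv
  -- colours of the vertices of `Q` against the outside
  have hout : ∀ q ∈ Q, ∀ w ∈ S, w ∉ Q → G.Adj q w → f q ≠ k w := by
    intro q hq w hw hwQ hqw h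
    have hmem : k w ∈ ((S \ Q).filter (G.Adj q)).image k :=
      mem_image.2 ⟨w, mem_filter.2 ⟨mem_sdiff.2 ⟨hw, hwQ⟩, hqw⟩, rfl⟩
    rcases hQc q hq with rfl | rfl | rfl | rfl
    · rw [fa] at h
      exact (mem_sdiff.1 hxa).2 (h ▸ hmem)
    · rw [fb] at h
      exact (mem_sdiff.1 hxb).2 (h ▸ hmem)
    · rw [fc] at h
      exact (mem_sdiff.1 hxc).2 (h ▸ hmem)
    · rw [fd] at h
      exact (mem_sdiff.1 hxd).2 (h ▸ hmem)
  have hin : ∀ p ∈ Q, ∀ q ∈ Q, G.Adj p q → f p ≠ f q := by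
    intro p hp q hq hpq
    rcases hQc p hp with rfl | rfl | rfl | rfl <;> rcases hQc q hq with rfl | rfl | rfl | rfl
    · exact absurd hpq (G.loopless.irrefl _)
    · rw [fa, fb]; exact n1
    · exact absurd hpq hac'
    · rw [fa, fd]; exact n4.symm
    · rw [fa, fb]; exact n1.symm
    · exact absurd hpq (G.loopless.irrefl _)
    · rw [fb, fc]; exact n2
    · exact absurd hpq hbd'
    · exact absurd hpq.symm hac'
    · rw [fb, fc]; exact n2.symm
    · exact absurd hpq (G.loopless.irrefl _)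
    · rw [fc, fd]; exact n3
    · rw [fd, fa]; exact n4
    · exact absurd hpq.symm hbd'
    · rw [fc, fd]; exact n3.symm
    · exact absurd hpq (G.loopless.irrefl _)
  apply hS
  refine ⟨f, ?_, ?_⟩
  · intro v hv
    by_cases hvQ : v ∈ Q
    · rcases hQc v hvQ with rfl | rfl | rfl | rfl
      · rw [fa]; exact (mem_sdiff.1 hxa).1
      · rw [fb]; exact (mem_sdiff.1 hxb).1
      · rw [fc]; exact (mem_sdiff.1 hxc).1
      · rw [fd]; exact (mem_sdiff.1 hxd).1
    · rw [fo v hvQ]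
      exact hk v (mem_sdiff.2 ⟨hv, hvQ⟩)
  · intro u hu v hv huv
    by_cases huQ : u ∈ Q
    · by_cases hvQ : v ∈ Q
      · exact hin u huQ v hvQ huv
      · rw [fo v hvQ]
        exact hout u huQ v hv hvQ huv
    · rw [fo u huQ]
      by_cases hvQ : v ∈ Q
      · exact (hout v hvQ u hu huQ huv.symm).symm
      · rw [fo v hvQ]
        exact hk' u (mem_sdiff.2 ⟨hu, huQ⟩) v (mem_sdiff.2 ⟨hv, hvQ⟩) huv

end Pool.Agent.R740.EF
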