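import Mathlib

set_option autoImplicit false

/-!
# Graphs embedded in closed orientable surfaces: rotation systems
-/

namespace Pool.Agent.R740.EF

open SimpleGraph

variable {V : Type} {G : SimpleGraph V}

/-- A rotation system of the graph `G`, that is, an embedding of `G` in closed orientable surfaces:
`next d` is the dart (oriented edge) that follows `d` in the cyclic order around the vertex
`d.fst` where `d` starts. -/
structure Rotation (G : SimpleGraph V) where
  next : Equiv.Perm G.Dart
  fst_next : ∀ d : G.Dart, (next d).fst = d.fst
  sameCycle : ∀ d e : G.Dart, d.fst = e.fst → next.SameCycle d e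

/-- the reversal of darts -/
def rev : Equiv.Perm G.Dart := ⟨Dart.symm, Dart.symm, Dart.symm_symm, Dart.symm_symm⟩

/-- the dart that follows `d` on the boundary walk of a face -/
def Rotation.face (R : Rotation G) : Equiv.Perm G.Dart := rev.trans R.next

/-- the faces are the cycles of the permutation `R.face` -/
def Rotation.Face (R : Rotation G) : Type := Quotient (Equiv.Perm.SameCycle.setoid R.face)

/-- For a connected graph with an edge: the surface of the rotation system, in which every face is
a disc, has genus at most `g` (that is `2 - 2 g ≤ |V| - |E| + |F|`). -/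
def Rotation.GenusLE (R : Rotation G) (g : ℕ) : Prop :=
  Nat.card G.edgeSet + 2 ≤ Nat.card V + Nat.card R.Face + 2 * g

/-- every facial walk has even length -/
def Rotation.EvenFaced (R : Rotation G) : Prop :=
  ∀ d : G.Dart, Even (Nat.card {e // R.face.SameCycle d e})

/-- homotopy of walks (with fixed ends) in the surface: the smallest congruence such that a walk
forth and back along an edge is trivial and every facial walk is trivial -/
inductive Rotation.Homotopic (R : Rotation G) : ∀ {u v : V}, G.Walk u v → G.Walk u v → Prop
  | refl {u v : V} (p : G.Walk u v) : Homotopic R p p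
  | symm {u v : V} {p q : G.Walk u v} : Homotopic R p q → Homotopic R q p
  | trans {u v : V} {p q r : G.Walk u v} : Homotopic R p q → Homotopic R q r → Homotopic R p r
  | append {u v w : V} {p p' : G.Walk u v} {q q' : G.Walk v w} :
      Homotopic R p p' → Homotopic R q q' → Homotopic R (p.append q) (p'.append q')
  | back {u v : V} (h : G.Adj u v) : Homotopic R (.cons h (.cons h.symm .nil)) .nil
  | face {u : V} (p : G.Walk u u) (d : G.Dart) (k : ℕ) (hk : k = Nat.card {e // R.face.SameCycle d e})
      (hp : p.darts = (List.range k).map fun i => (R.face ^ i) d) : Homotopic R p .nil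

/-- a closed walk is contractible in the surface -/
def Rotation.Contractible (R : Rotation G) {u : V} (p : G.Walk u u) : Prop := R.Homotopic p .nil

/-- every noncontractible cycle has at least `N` edges -/
def Rotation.EdgeWidthGE (R : Rotation G) (N : ℕ) : Prop :=
  ∀ (u : V) (p : G.Walk u u), p.IsCycle → ¬ R.Contractible p → N ≤ p.length

/-- `G` has a proper colouring from all lists with at least `k` colours -/
def Choosable (G : SimpleGraph V) (k : ℕ) : Prop :=
  ∀ (C : Type) (L : V → Finset C), (∀ v, k ≤ (L v).card) →
    ∃ c : V → C, (∀ v, c v ∈ L v) ∧ ∀ u v, G.Adj u v → c u ≠ c v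

/-! ## The darts inside a set of vertices and the regions of their complement -/

/-- both ends of the dart are in `S` -/
def inS (S : Finset V) (d : G.Dart) : Prop := d.fst ∈ S ∧ d.snd ∈ S

/-- two darts are on the boundary of the same region of the surface minus the edges inside `S` -/
inductive Rotation.rel (R : Rotation G) (S : Finset V) : G.Dart → G.Dart → Prop
  | face (d : G.Dart) : Rotation.rel R S d (R.face d)
  | cross (d : G.Dart) (h : ¬ inS S d) : Rotation.rel R S d d.symm

/-- the regions -/
def Rotation.Reg (R : Rotation G) (S : Finset V) : Type := Quot (R.rel S)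

/-- the region to which a dart belongs -/
def Rotation.reg (R : Rotation G) (S : Finset V) (d : G.Dart) : R.Reg S := Quot.mk _ d

/-- the number of edges inside `S` -/
noncomputable def eS (G : SimpleGraph V) (S : Finset V) : ℕ :=
  Nat.card {e : G.edgeSet // ∀ v ∈ e.1, v ∈ S}

/-- the number of neighbours of `v` in `S` -/
noncomputable def dS (G : SimpleGraph V) (S : Finset V) (v : V) : ℕ :=
  Nat.card {w // G.Adj v w ∧ w ∈ S}

end Pool.Agent.R740.EF
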