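import Pool.Agent.R740.EF.Stm

set_option autoImplicit false
set_option linter.unusedSectionVars false

/-!
# Project EF, piece L1: a lower bound for the dimension of the cycle space
-/

namespace Pool.Agent.R740.EF

open SimpleGraph Finset

section

variable {V : Type} [Fintype V] [DecidableEq V] (G : SimpleGraph V) [DecidableRel G.Adj]
  (S : Finset V)

open scoped Classical in
/-- the function on the darts given by a function on the edges inside `S` -/
noncomputable def l1Ext : ({e : G.edgeSet // ∀ v ∈ e.1, v ∈ S} → ZMod 2) →ₗ[ZMod 2]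
    (G.Dart → ZMod 2) where
  toFun y d := if h : d.edge ∈ G.edgeSet ∧ ∀ v ∈ d.edge, v ∈ S then y ⟨⟨d.edge, h.1⟩, h.2⟩ else 0
  map_add' y y' := by
    funext d
    by_cases h : d.edge ∈ G.edgeSet ∧ ∀ v ∈ d.edge, v ∈ S
    · simp only [dif_pos h, Pi.add_apply]
    · simp only [dif_neg h, Pi.add_apply, add_zero]
  map_smul' c y := by
    funext d
    by_cases h : d.edge ∈ G.edgeSet ∧ ∀ v ∈ d.edge, v ∈ S
    · simp only [dif_pos h, Pi.smul_apply, RingHom.id_apply]
    · simp only [dif_neg h, Pi.smul_apply, RingHom.id_apply, smul_zero]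

theorem l1Ext_symm (y : {e : G.edgeSet // ∀ v ∈ e.1, v ∈ S} → ZMod 2) (d : G.Dart) :
    l1Ext G S y d.symm = l1Ext G S y d := by
  classical
  have h1 : ∀ s s' : Sym2 V, s = s' →
      (if h : s ∈ G.edgeSet ∧ ∀ v ∈ s, v ∈ S then y ⟨⟨s, h.1⟩, h.2⟩ else 0) =
      if h : s' ∈ G.edgeSet ∧ ∀ v ∈ s', v ∈ S then y ⟨⟨s', h.1⟩, h.2⟩ else 0 := by
    rintro s _ rfl
    rfl
  exact h1 _ _ (Dart.edge_symm d)

theorem l1Ext_supp (y : {e : G.edgeSet // ∀ v ∈ e.1, v ∈ S} → ZMod 2) (d : G.Dart)
    (hd : ¬ inS S d) : l1Ext G S y d = 0 := by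
  classical
  refine dif_neg fun h => hd ⟨h.2 _ ?_, h.2 _ ?_⟩
  · exact Sym2.mem_mk_left _ _
  · exact Sym2.mem_mk_right _ _

theorem l1Ext_inj : Function.Injective (l1Ext G S) := by
  classical
  rw [← LinearMap.ker_eq_bot, LinearMap.ker_eq_bot']
  intro y hy
  funext e
  obtain ⟨⟨s, hs⟩, hsS⟩ := e
  induction s using Sym2.ind with
  | _ a b =>
    have h1 := congrFun hy ⟨(a, b), hs⟩
    have h2 : l1Ext G S y ⟨(a, b), hs⟩ = y ⟨⟨s(a, b), hs⟩, hsS⟩ := dif_pos ⟨hs, hsS⟩
    rw [h2] at h1
    exact h1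

theorem l1_sum_symm (z : G.Dart → ZMod 2) (hz : ∀ d, z d.symm = z d) : ∑ d, z d = 0 := by
  refine Finset.sum_involution (fun d _ => d.symm) ?_ ?_ ?_ ?_
  · intro d _
    rw [hz]
    exact CharTwo.add_self_eq_zero _
  · intro d _ _
    exact Dart.symm_ne d
  · intro d _
    exact mem_univ _
  · intro d _
    exact Dart.symm_symm d

/-- the boundary map -/
noncomputable def l1Del : ({e : G.edgeSet // ∀ v ∈ e.1, v ∈ S} → ZMod 2) →ₗ[ZMod 2]
    (S → ZMod 2) where
  toFun y v := ∑ d : G.Dart, if d.fst = v.1 then l1Ext G S y d else 0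
  map_add' y y' := by
    funext v
    rw [Pi.add_apply, ← sum_add_distrib]
    refine sum_congr rfl fun d _ => ?_
    rw [map_add, Pi.add_apply]
    by_cases h : d.fst = v.1
    · rw [if_pos h, if_pos h, if_pos h]
    · rw [if_neg h, if_neg h, if_neg h, add_zero]
  map_smul' c y := by
    funext v
    rw [Pi.smul_apply, RingHom.id_apply, smul_sum]
    refine sum_congr rfl fun d _ => ?_
    rw [map_smul, Pi.smul_apply]
    by_cases h : d.fst = v.1
    · rw [if_pos h, if_pos h]
    · rw [if_neg h, if_neg h, smul_zero]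

theorem l1Del_sum (y : {e : G.edgeSet // ∀ v ∈ e.1, v ∈ S} → ZMod 2) :
    ∑ v, l1Del G S y v = 0 := by
  change ∑ v : S, ∑ d : G.Dart, (if d.fst = v.1 then l1Ext G S y d else 0) = 0
  rw [Finset.sum_comm]
  refine Eq.trans (sum_congr rfl fun d _ => ?_) (l1_sum_symm G (l1Ext G S y) (l1Ext_symm G S y))
  by_cases h : d.fst ∈ S
  · rw [Finset.sum_eq_single ⟨d.fst, h⟩]
    · rw [if_pos rfl]
    · intro v _ hv
      rw [if_neg]
      intro h1
      exact hv (Subtype.ext h1.symm)
    · intro h1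
      exact absurd (mem_univ _) h1
  · have h0 : l1Ext G S y d = 0 := l1Ext_supp G S y d fun h1 => h h1.1
    rw [h0]
    refine Finset.sum_eq_zero fun v _ => ?_
    rw [ite_self]

end

/-- **Piece L1.** -/
theorem done1 : St1 := by
  classical
  intro V _ _ G _ S hS
  obtain ⟨v0, hv0⟩ := hS
  have hrn := LinearMap.finrank_range_add_finrank_ker (l1Del G S)
  have hE : Module.finrank (ZMod 2) ({e : G.edgeSet // ∀ v ∈ e.1, v ∈ S} → ZMod 2) = eS G S := by
    rw [Module.finrank_pi]
    unfold eS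
    rw [Nat.card_eq_fintype_card]
  -- the range
  have hrange : Module.finrank (ZMod 2) (LinearMap.range (l1Del G S)) < S.card := by
    have h1 : LinearMap.range (l1Del G S) ≠ ⊤ := by
      intro htop
      have h2 : (Pi.single ⟨v0, hv0⟩ 1 : S → ZMod 2) ∈ LinearMap.range (l1Del G S) := by
        rw [htop]
        trivial
      obtain ⟨y, hy⟩ := h2
      have h3 := l1Del_sum G S y
      rw [hy, Finset.sum_pi_single'] at h3
      simp at h3
    have h2 := Submodule.finrank_lt h1
    rw [Module.finrank_pi, Fintype.card_coe] at h2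
    exact h2
  -- the kernel
  have hker : Module.finrank (ZMod 2) (LinearMap.ker (l1Del G S)) ≤
      Module.finrank (ZMod 2) (cyc G S) := by
    have hmem : ∀ y : LinearMap.ker (l1Del G S), l1Ext G S y.1 ∈ cyc G S := by
      rintro ⟨y, hy⟩
      refine ⟨l1Ext_symm G S y, l1Ext_supp G S y, fun v => ?_⟩
      by_cases hv : v ∈ S
      · exact congrFun (LinearMap.mem_ker.1 hy) ⟨v, hv⟩
      · refine Finset.sum_eq_zero fun d _ => ?_
        by_cases h : d.fst = v
        · rw [if_pos h]
          exact l1Ext_supp G S y d fun h1 => hv (h ▸ h1.1)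
        · rw [if_neg h]
    refine LinearMap.finrank_le_finrank_of_injective
      (f := ((l1Ext G S).domRestrict (LinearMap.ker (l1Del G S))).codRestrict (cyc G S) hmem) ?_
    intro y y' h
    have h1 := congrArg Subtype.val h
    exact Subtype.ext (l1Ext_inj G S h1)
  rw [hE] at hrn
  omega

end Pool.Agent.R740.EF
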