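import Pool.Agent.R740.EF.Stm

set_option autoImplicit false

/-!
# L2: the dimension of the cycle space of a connected graph
-/

namespace Pool.Agent.R740.EF.L2

open SimpleGraph Finset

variable {V : Type} [Fintype V] [DecidableEq V] (G : SimpleGraph V) [DecidableRel G.Adj]

/-- the boundary map -/
noncomputable def phi : (G.edgeSet → ZMod 2) →ₗ[ZMod 2] (V → ZMod 2) where
  toFun y := fun v => ∑ d : G.Dart, if d.fst = v then y ⟨d.edge, d.edge_mem⟩ else 0
  map_add' a b := by
    funext v
    rw [Pi.add_apply, ← sum_add_distrib]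
    refine sum_congr rfl fun d _ => ?_
    by_cases h : d.fst = v
    · rw [if_pos h, if_pos h, if_pos h, Pi.add_apply]
    · rw [if_neg h, if_neg h, if_neg h, add_zero]
  map_smul' c a := by
    funext v
    rw [Pi.smul_apply, smul_eq_mul, mul_sum]
    refine sum_congr rfl fun d _ => ?_
    by_cases h : d.fst = v
    · rw [if_pos h, if_pos h, Pi.smul_apply, smul_eq_mul, RingHom.id_apply]
    · rw [if_neg h, if_neg h, mul_zero]

/-- edge functions as symmetric functions of the darts -/
noncomputable def psi : (G.edgeSet → ZMod 2) →ₗ[ZMod 2] (G.Dart → ZMod 2) where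
  toFun y := fun d => y ⟨d.edge, d.edge_mem⟩
  map_add' _ _ := rfl
  map_smul' _ _ := rfl

lemma cyc_le : cyc G univ ≤ Submodule.map (psi G) (LinearMap.ker (phi G)) := by
  rintro z ⟨h1, _, h3⟩
  have hd : ∀ e : G.edgeSet, ∃ d : G.Dart, d.edge = e.1 := by
    rintro ⟨e, he⟩
    induction e using Sym2.ind with
    | _ u v => exact ⟨⟨(u, v), he⟩, rfl⟩
  choose D hD using hd
  have key : ∀ d : G.Dart, z (D ⟨d.edge, d.edge_mem⟩) = z d := by
    intro d
    have h4 := hD ⟨d.edge, d.edge_mem⟩
    rcases (dart_edge_eq_iff _ _).1 h4 with h | h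
    · rw [h]
    · rw [h, h1]
  refine ⟨fun e => z (D e), ?_, ?_⟩
  · rw [SetLike.mem_coe, LinearMap.mem_ker]
    funext v
    have h5 : (phi G) (fun e => z (D e)) v =
        ∑ d : G.Dart, if d.fst = v then z (D ⟨d.edge, d.edge_mem⟩) else 0 := rfl
    rw [h5]
    simp only [key]
    exact h3 v
  · funext d
    exact key d

lemma add_self (x : V → ZMod 2) : x + x = 0 := by
  funext v
  exact CharTwo.add_self_eq_zero _

lemma phi_single (u v : V) (h : G.Adj u v) :
    phi G (Pi.single ⟨s(u, v), (mem_edgeSet G).2 h⟩ 1) = Pi.single u 1 + Pi.single v 1 := by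
  funext w
  have h5 : phi G (Pi.single ⟨s(u, v), (mem_edgeSet G).2 h⟩ 1) w = ∑ d : G.Dart,
      if d.fst = w then (Pi.single (⟨s(u, v), (mem_edgeSet G).2 h⟩ : G.edgeSet) (1 : ZMod 2) :
        G.edgeSet → ZMod 2) ⟨d.edge, d.edge_mem⟩ else 0 := rfl
  rw [h5]
  let d0 : G.Dart := ⟨(u, v), h⟩
  have hne : d0 ≠ d0.symm := d0.symm_ne.symm
  rw [Finset.sum_eq_add d0 d0.symm hne]
  · have e1 : (⟨d0.edge, d0.edge_mem⟩ : G.edgeSet) = ⟨s(u, v), (mem_edgeSet G).2 h⟩ := rfl
    have e2 : (⟨d0.symm.edge, d0.symm.edge_mem⟩ : G.edgeSet) = ⟨s(u, v), (mem_edgeSet G).2 h⟩ := by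
      refine Subtype.ext ?_
      exact Dart.edge_symm d0
    have e3 : d0.fst = u := rfl
    have e4 : d0.symm.fst = v := rfl
    rw [e1, e2, e3, e4, Pi.single_eq_same, Pi.add_apply, Pi.single_apply, Pi.single_apply]
    by_cases hu : u = w
    · by_cases hv : v = w
      · simp [hu, hv]
      · have hv' : ¬ w = v := fun h => hv h.symm
        simp [hu, hv, hv']
    · have hu' : ¬ w = u := fun h => hu h.symm
      by_cases hv : v = w
      · simp [hu, hu', hv]
      · have hv' : ¬ w = v := fun h => hv h.symm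
        simp [hu, hu', hv, hv']
  · intro d _ hd
    have : (⟨d.edge, d.edge_mem⟩ : G.edgeSet) ≠ ⟨s(u, v), (mem_edgeSet G).2 h⟩ := by
      intro h6
      have h7 : d.edge = d0.edge := congrArg Subtype.val h6
      rcases (dart_edge_eq_iff _ _).1 h7 with h8 | h8
      · exact hd.1 h8
      · exact hd.2 h8
    rw [Pi.single_eq_of_ne this]
    simp
  · intro h6
    exact absurd (mem_univ _) h6
  · intro h6
    exact absurd (mem_univ _) h6

lemma range_walk (u v : V) (p : G.Walk u v) :
    (Pi.single u 1 + Pi.single v 1 : V → ZMod 2) ∈ LinearMap.range (phi G) := by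
  induction p with
  | nil =>
    rw [add_self]
    exact zero_mem _
  | @cons a b c h p ih =>
    have h1 : (Pi.single a 1 + Pi.single b 1 : V → ZMod 2) ∈ LinearMap.range (phi G) :=
      ⟨_, phi_single G a b h⟩
    have h2 := add_mem h1 ih
    have h3 : (Pi.single a 1 + Pi.single b 1 + (Pi.single b 1 + Pi.single c 1) : V → ZMod 2) =
        Pi.single a 1 + Pi.single c 1 := by
      rw [add_assoc, ← add_assoc (Pi.single b 1) (Pi.single b 1), add_self,
        zero_add]
    rwa [h3] at h2

lemma card_le (hG : G.Connected) :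
    Fintype.card V ≤ Module.finrank (ZMod 2) (LinearMap.range (phi G)) + 1 := by
  obtain ⟨v0⟩ := hG.nonempty
  have htop : (⊤ : Submodule (ZMod 2) (V → ZMod 2)) ≤
      LinearMap.range (phi G) ⊔ Submodule.span (ZMod 2) {(Pi.single v0 1 : V → ZMod 2)} := by
    rw [← (Pi.basisFun (ZMod 2) V).span_eq, Submodule.span_le]
    rintro _ ⟨v, rfl⟩
    rw [Pi.basisFun_apply, SetLike.mem_coe]
    obtain ⟨p⟩ := hG.preconnected v v0
    have h1 := range_walk G v v0 p
    have h2 : (Pi.single v 1 : V → ZMod 2) =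
        (Pi.single v 1 + Pi.single v0 1) + Pi.single v0 1 := by
      rw [add_assoc, add_self, add_zero]
    rw [h2]
    exact add_mem (Submodule.mem_sup_left h1)
      (Submodule.mem_sup_right (Submodule.mem_span_singleton_self _))
  have h1 := Submodule.finrank_mono htop
  rw [finrank_top, Module.finrank_fintype_fun_eq_card] at h1
  have h2 := Submodule.finrank_add_le_finrank_add_finrank (LinearMap.range (phi G))
    (Submodule.span (ZMod 2) {(Pi.single v0 1 : V → ZMod 2)})
  have h3 : Module.finrank (ZMod 2)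
      (Submodule.span (ZMod 2) {(Pi.single v0 1 : V → ZMod 2)}) ≤ 1 := by
    refine (finrank_span_le_card _).trans ?_
    simp
  omega

/-- L2 -/
theorem done2 : St2 := by
  intro V _ _ G _ hG
  have h1 := Submodule.finrank_mono (cyc_le G)
  have h2 := Submodule.finrank_map_le (psi G) (LinearMap.ker (phi G))
  have h3 := LinearMap.finrank_range_add_finrank_ker (phi G)
  rw [Module.finrank_fintype_fun_eq_card] at h3
  have h4 := card_le G hG
  rw [Nat.card_eq_fintype_card]
  omega

end Pool.Agent.R740.EF.L2
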