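import Pool.Agent.R740.EF.Stm

set_option autoImplicit false
set_option linter.unusedSectionVars false

/-!
# Project EF, piece L3: the dimension of the space of boundaries
-/

namespace Pool.Agent.R740.EF

open SimpleGraph Finset

theorem l3_zpow {α β : Type} (σ : Equiv.Perm α) (W : α → β) (h : ∀ d, W (σ d) = W d) (i : ℤ)
    (d : α) : W ((σ ^ i) d) = W d := by
  induction i using Int.induction_on with
  | zero => rw [zpow_zero, Equiv.Perm.one_apply]
  | succ n ih => rw [add_comm, zpow_add, zpow_one, Equiv.Perm.mul_apply, h, ih]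
  | pred n ih =>
    rw [← ih, ← h ((σ ^ (-(n : ℤ) - 1)) d), ← Equiv.Perm.mul_apply]
    congr 2
    rw [← zpow_one_add]
    congr 1
    ring

theorem l3_same {α β : Type} {σ : Equiv.Perm α} {W : α → β} (h : ∀ d, W (σ d) = W d) {d e : α}
    (hde : σ.SameCycle d e) : W d = W e := by
  obtain ⟨i, hi⟩ := hde
  rw [← hi, l3_zpow σ W h]

section

variable {V : Type} {G : SimpleGraph V} (R : Rotation G)

/-- the face of a dart -/
def l3Face (d : G.Dart) : R.Face := Quotient.mk (Equiv.Perm.SameCycle.setoid R.face) d

theorem l3Face_face (d : G.Dart) : l3Face R (R.face d) = l3Face R d :=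
  Quotient.sound (s := Equiv.Perm.SameCycle.setoid R.face)
    (Equiv.Perm.SameCycle.symm ⟨1, by rw [zpow_one]⟩)

/-- the boundary map on functions on the faces -/
def l3T : (R.Face → ZMod 2) →ₗ[ZMod 2] (G.Dart → ZMod 2) where
  toFun Y d := Y (l3Face R d) + Y (l3Face R d.symm)
  map_add' Y Y' := by
    funext d
    simp only [Pi.add_apply]
    ring
  map_smul' c Y := by
    funext d
    simp only [Pi.smul_apply, smul_eq_mul, RingHom.id_apply]
    ring

theorem l3_range : LinearMap.range (l3T R) ≤ bdy R := by
  rintro _ ⟨Y, rfl⟩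
  refine ⟨fun d => Y (l3Face R d), fun d => ?_, fun d => rfl⟩
  beta_reduce
  rw [l3Face_face]

/-- functions which are constant on faces and invariant under reversal are constant -/
theorem l3_const (hG : G.Connected) {W : G.Dart → ZMod 2} (h1 : ∀ d, W (R.face d) = W d)
    (h2 : ∀ d : G.Dart, W d.symm = W d) (d e : G.Dart) : W d = W e := by
  have h3 : ∀ d, W (R.next d) = W d := by
    intro d
    have h4 : R.face d.symm = R.next d := by
      change R.next (d.symm.symm) = R.next d
      rw [Dart.symm_symm]
    rw [← h4, h1, h2]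
  have h5 : ∀ d e : G.Dart, d.fst = e.fst → W d = W e := fun d e h =>
    l3_same h3 (R.sameCycle d e h)
  have h6 : ∀ {u v : V} (_ : G.Walk u v) (d e : G.Dart), d.fst = u → e.fst = v → W d = W e := by
    intro u v p
    induction p with
    | nil =>
      intro d e hd he
      exact h5 d e (hd.trans he.symm)
    | @cons a b c hab p ih =>
      intro d e hd he
      have h7 : W d = W (⟨(a, b), hab⟩ : G.Dart) := h5 _ _ hd
      rw [h7, ← h2]
      exact ih _ e rfl he
  obtain ⟨p⟩ := hG.preconnected d.fst e.fst
  exact h6 p d e rfl rfl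

end

/-- **Piece L3.** -/
theorem done3 : St3 := by
  classical
  intro V _ _ G _ R hG
  have hfin : Finite R.Face := by
    unfold Rotation.Face
    infer_instance
  have hfint : Fintype R.Face := Fintype.ofFinite _
  have hrn := LinearMap.finrank_range_add_finrank_ker (l3T R)
  rw [Module.finrank_pi, ← Nat.card_eq_fintype_card] at hrn
  have hrange : Module.finrank (ZMod 2) (LinearMap.range (l3T R)) ≤
      Module.finrank (ZMod 2) (bdy R) := Submodule.finrank_mono (l3_range R)
  have hker : Module.finrank (ZMod 2) (LinearMap.ker (l3T R)) ≤ 1 := by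
    have h1 : (fun _ => 1 : R.Face → ZMod 2) ∈ LinearMap.ker (l3T R) := by
      rw [LinearMap.mem_ker]
      funext d
      exact CharTwo.add_self_eq_zero (1 : ZMod 2)
    refine finrank_le_one (⟨_, h1⟩ : LinearMap.ker (l3T R)) ?_
    rintro ⟨Y, hY⟩
    rw [LinearMap.mem_ker] at hY
    rcases isEmpty_or_nonempty R.Face with he | ⟨⟨x1⟩⟩
    · refine ⟨0, Subtype.ext ?_⟩
      funext x
      exact he.elim x
    · obtain ⟨x0, -⟩ := Quot.exists_rep x1
      refine ⟨Y (l3Face R x0), Subtype.ext ?_⟩
      funext x
      induction x using Quotient.inductionOn with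
      | _ x =>
        have h2 : ∀ d : G.Dart, Y (l3Face R (R.face d)) = Y (l3Face R d) := fun d => by
          rw [l3Face_face]
        have h3 : ∀ d : G.Dart, Y (l3Face R d.symm) = Y (l3Face R d) := fun d => by
          have h4 : Y (l3Face R d) + Y (l3Face R d.symm) = 0 := congrFun hY d
          exact (CharTwo.add_eq_zero.1 h4).symm
        have h5 := l3_const R hG (W := fun d => Y (l3Face R d)) h2 h3 x0 x
        change Y (l3Face R x0) * 1 = Y (l3Face R x)
        rw [mul_one]
        exact h5
  omega

end Pool.Agent.R740.EF
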