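import Pool.Agent.R740.EF.Stm

set_option autoImplicit false

/-!
# L4: the regions of the complement of `S`
-/

namespace Pool.Agent.R740.EF.L4

open SimpleGraph Finset

variable {V : Type} {G : SimpleGraph V}

/-- the coboundary of a function of the regions -/
noncomputable def T (R : Rotation G) (S : Finset V) :
    (R.Reg S → ZMod 2) →ₗ[ZMod 2] (G.Dart → ZMod 2) where
  toFun Y := fun d => Y (R.reg S d) + Y (R.reg S d.symm)
  map_add' a b := by
    funext d
    simp only [Pi.add_apply]
    ring
  map_smul' c a := by
    funext d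
    simp only [Pi.smul_apply, smul_eq_mul, RingHom.id_apply]
    ring

/-- L4 -/
theorem done4 : St4 := by
  intro V _ _ G _ R S hne
  have : Finite (R.Reg S) := inferInstanceAs (Finite (Quot (R.rel S)))
  letI : Fintype (R.Reg S) := Fintype.ofFinite _
  have hle : cyc G S ⊓ bdy R ≤ LinearMap.range (T R S) := by
    rintro z ⟨⟨_, h2, _⟩, ⟨W, k1, k2⟩⟩
    have hW : ∀ d e : G.Dart, R.rel S d e → W d = W e := by
      intro d e hde
      cases hde with
      | face => exact (k1 d).symm
      | cross h =>
        have h3 := h2 d h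
        rw [k2] at h3
        exact CharTwo.add_eq_zero.1 h3
    refine ⟨Quot.lift W hW, ?_⟩
    funext d
    exact (k2 d).symm
  have h1 := Submodule.finrank_mono hle
  have h3 := LinearMap.finrank_range_add_finrank_ker (T R S)
  rw [Module.finrank_fintype_fun_eq_card] at h3
  have h4 : 1 ≤ Module.finrank (ZMod 2) (LinearMap.ker (T R S)) := by
    obtain ⟨d⟩ := hne
    have h5 : (fun _ => 1 : R.Reg S → ZMod 2) ∈ LinearMap.ker (T R S) := by
      rw [LinearMap.mem_ker]
      funext e
      exact CharTwo.add_self_eq_zero _
    have h6 : (fun _ => 1 : R.Reg S → ZMod 2) ≠ 0 := by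
      intro h
      exact one_ne_zero (congrFun h (R.reg S d))
    have h7 : LinearMap.ker (T R S) ≠ ⊥ := by
      intro h
      rw [h, Submodule.mem_bot] at h5
      exact h6 h5
    exact Nat.one_le_iff_ne_zero.2 fun h => h7 (Submodule.finrank_eq_zero.1 h)
  rw [Nat.card_eq_fintype_card]
  omega

end Pool.Agent.R740.EF.L4
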