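import Pool.Agent.R740.EF.Stm

/-!
# EF-L6: homotopic walks have homologous chains and lengths of the same parity (helper33)
-/

set_option autoImplicit false

namespace Pool.Agent.R740.EF

open SimpleGraph

namespace L6

/-- the list of the iterates over one period -/
lemma nodup_iter {α : Type} (f : Equiv.Perm α) (d : α) :
    ((List.range (Function.minimalPeriod f d)).map fun n => (f ^ n) d).Nodup := by
  have h := Function.nodup_periodicOrbit (f := f) (x := d)
  rw [Function.periodicOrbit, Cycle.nodup_coe_iff] at h
  simpa [← Equiv.Perm.iterate_eq_pow] using h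

lemma mem_iter {α : Type} [Finite α] (f : Equiv.Perm α) (d e : α) :
    e ∈ ((List.range (Function.minimalPeriod f d)).map fun n => (f ^ n) d) ↔ f.SameCycle d e := by
  have hper : d ∈ Function.periodicPts f := by
    exact Function.Injective.mem_periodicPts f.injective d
  have h := Function.mem_periodicOrbit_iff (f := f) (x := d) (y := e) hper
  rw [Function.periodicOrbit, Cycle.mem_coe_iff] at h
  have h2 : e ∈ ((List.range (Function.minimalPeriod f d)).map fun n => (f ^ n) d) ↔
      ∃ n : ℕ, (f ^ n) d = e := by
    simpa [← Equiv.Perm.iterate_eq_pow] using h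
  rw [h2]
  constructor
  · rintro ⟨n, hn⟩
    exact ⟨n, by simpa using hn⟩
  · intro h
    obtain ⟨n, _, hn⟩ := h.exists_pow_eq'
    exact ⟨n, hn⟩

lemma card_iter {α : Type} [Finite α] (f : Equiv.Perm α) (d : α) :
    Nat.card {e // f.SameCycle d e} = Function.minimalPeriod f d := by
  classical
  set L := ((List.range (Function.minimalPeriod f d)).map fun n => (f ^ n) d) with hL
  have h1 : {e | f.SameCycle d e} = (L.toFinset : Set α) := by
    ext e
    rw [List.coe_toFinset]
    exact (mem_iter f d e).symm
  have h2 : Nat.card {e // f.SameCycle d e} = L.toFinset.card := by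
    have : Nat.card {e // f.SameCycle d e} = Set.ncard {e | f.SameCycle d e} := rfl
    rw [this, h1, Set.ncard_coe_finset]
  rw [h2, List.toFinset_card_of_nodup (nodup_iter f d)]
  simp

variable {V : Type} [DecidableEq V] {G : SimpleGraph V}

lemma chain_append {u v w : V} (p : G.Walk u v) (q : G.Walk v w) :
    chain (p.append q) = chain p + chain q := by
  funext d
  simp only [chain, Walk.darts_append, List.count_append, Pi.add_apply]
  push_cast
  ring

lemma chain_nil (u : V) : chain (Walk.nil : G.Walk u u) = 0 := by
  funext d
  simp [chain]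

end L6

open L6

theorem done6 : St6 := by
  intro V _ _ G _ R u v p q h
  induction h with
  | refl p => rw [sub_self]; exact Submodule.zero_mem _
  | symm _ ih => rw [← neg_sub]; exact Submodule.neg_mem _ ih
  | trans _ _ ih1 ih2 =>
    have := Submodule.add_mem _ ih1 ih2
    rwa [sub_add_sub_cancel] at this
  | append _ _ ih1 ih2 =>
    have := Submodule.add_mem _ ih1 ih2
    rw [chain_append, chain_append, add_sub_add_comm]
    exact this
  | back h =>
    have : chain (Walk.cons h (Walk.cons h.symm Walk.nil)) = 0 := by
      funext d
      simp only [chain, Walk.darts_cons, Walk.darts_nil, List.count_cons, List.count_nil, Pi.zero_apply]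
      have e1 : ((⟨(_, _), h⟩ : G.Dart) == d) = ((⟨(_, _), h.symm⟩ : G.Dart) == d.symm) := by
        rw [Bool.eq_iff_iff, beq_iff_eq, beq_iff_eq]
        constructor
        · rintro rfl; rfl
        · intro h'
          rw [← Dart.symm_symm d, ← h']; rfl
      have e2 : ((⟨(_, _), h.symm⟩ : G.Dart) == d) = ((⟨(_, _), h⟩ : G.Dart) == d.symm) := by
        rw [Bool.eq_iff_iff, beq_iff_eq, beq_iff_eq]
        constructor
        · rintro rfl; rfl
        · intro h'
          rw [← Dart.symm_symm d, ← h']; rfl
      rw [e1, e2]
      push_cast
      ring_nf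
      have h2 : (2 : ZMod 2) = 0 := rfl
      simp [h2]
    rw [this, chain_nil, sub_self]
    exact Submodule.zero_mem _
  | face p d k hk hp =>
    rw [chain_nil, sub_zero]
    rw [card_iter] at hk
    subst hk
    refine ⟨fun e => ((p.darts.count e : ℕ) : ZMod 2), fun e => ?_, fun e => ?_⟩
    · have key : ∀ e, p.darts.count e = if e ∈ p.darts then 1 else 0 := by
        intro e
        rw [hp]
        split_ifs with h
        · exact List.count_eq_one_of_mem (nodup_iter _ _) h
        · exact List.count_eq_zero_of_not_mem h
      have hmem : (R.face e ∈ p.darts) ↔ (e ∈ p.darts) := by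
        rw [hp, mem_iter, mem_iter, Equiv.Perm.sameCycle_apply_right]
      beta_reduce
      rw [key, key]
      simp only [hmem]
    · simp [chain]

theorem done6b : ∀ (V : Type) (G : SimpleGraph V) (R : Rotation G) (u v : V) (p q : G.Walk u v),
    R.EvenFaced → R.Homotopic p q → (Even p.length ↔ Even q.length) := by
  intro V G R u v p q hR h
  induction h with
  | refl p => exact Iff.rfl
  | symm _ ih => exact ih.symm
  | trans _ _ ih1 ih2 => exact ih1.trans ih2
  | append _ _ ih1 ih2 => rw [Walk.length_append, Walk.length_append, Nat.even_add, Nat.even_add, ih1, ih2]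
  | back h => simp
  | face p d k hk hp =>
    have h1 : p.length = k := by
      rw [← Walk.length_darts, hp]
      simp
    rw [h1, hk]
    simp [hR d]

end Pool.Agent.R740.EF
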