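import Pool.Agent.R740.EF.Stm

set_option autoImplicit false

/-!
# Piece L7 of the project EF: the mod 2 cycle space of `G[S]` is spanned by the chains of cycles
-/

namespace Pool.Agent.R740.EF

open SimpleGraph Finset

namespace P7

variable {V : Type} [DecidableEq V] {G : SimpleGraph V}

lemma count_edge (l : List G.Dart) (d : G.Dart) :
    (l.map Dart.edge).count d.edge = l.count d + l.count d.symm := by
  induction l with
  | nil => simp
  | cons a l ih =>
    rw [List.map_cons, List.count_cons, List.count_cons, List.count_cons, ih]
    have key : (if (a.edge == d.edge) = true then 1 else 0 : ℕ) =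
        (if (a == d) = true then 1 else 0) + (if (a == d.symm) = true then 1 else 0) := by
      simp only [beq_iff_eq, dart_edge_eq_iff]
      by_cases h1 : a = d
      · subst h1
        simp [(a.symm_ne).symm]
      · by_cases h2 : a = d.symm
        · subst h2
          simp [d.symm_ne]
        · simp [h1, h2]
    rw [key]
    ring

lemma chain_trail {u v : V} (p : G.Walk u v) (hp : p.IsTrail) (d : G.Dart) :
    chain p d = if d.edge ∈ p.edges then 1 else 0 := by
  unfold chain
  rw [← count_edge]
  have h := hp.edges_nodup
  change (((p.edges).count d.edge : ℕ) : ZMod 2) = _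
  split_ifs with hd
  · rw [List.count_eq_one_of_mem h hd]; simp
  · rw [List.count_eq_zero_of_not_mem hd]; simp

lemma sum_chain [Fintype V] [DecidableRel G.Adj] {u w : V} (p : G.Walk u w) (v : V) :
    ∑ d : G.Dart, (if d.fst = v then chain p d else 0) =
      (if v = u then 1 else 0) + (if v = w then 1 else 0) := by
  induction p with
  | nil =>
    have h2 : ∀ x : ZMod 2, x + x = 0 := by decide
    rw [h2]
    refine sum_eq_zero fun d _ => ?_
    simp [chain]
  | @cons a b c h q ih =>
    have key : ∀ d : G.Dart, (if d.fst = v then chain (Walk.cons h q) d else 0) =
        (if d = (⟨(a, b), h⟩ : G.Dart) then (if a = v then 1 else 0) else 0) +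
        (if d = (⟨(b, a), h.symm⟩ : G.Dart) then (if b = v then 1 else 0) else 0) +
        (if d.fst = v then chain q d else 0) := by
      intro d
      have e1 : ∀ d : G.Dart, ((⟨(a, b), h⟩ : G.Dart) == d) = true ↔ d = (⟨(a, b), h⟩ : G.Dart) := by
        intro d; rw [beq_iff_eq]; exact eq_comm
      have e2 : d.symm = (⟨(a, b), h⟩ : G.Dart) ↔ d = (⟨(b, a), h.symm⟩ : G.Dart) := by
        constructor
        · intro h'; rw [← Dart.symm_symm d, h']; rfl
        · intro h'; rw [h']; rfl
      have : chain (Walk.cons h q) d = (if d = (⟨(a, b), h⟩ : G.Dart) then 1 else 0) +
          (if d = (⟨(b, a), h.symm⟩ : G.Dart) then 1 else 0) + chain q d := by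
        unfold chain
        rw [Walk.darts_cons, List.count_cons, List.count_cons]
        simp only [e1, e2]
        push_cast
        ring
      rw [this]
      by_cases hv : d.fst = v
      · rw [if_pos hv, if_pos hv]
        congr 1
        congr 1
        · by_cases hd : d = (⟨(a, b), h⟩ : G.Dart)
          · rw [if_pos hd, if_pos hd, if_pos]
            rw [← hv, hd]
          · rw [if_neg hd, if_neg hd]
        · by_cases hd : d = (⟨(b, a), h.symm⟩ : G.Dart)
          · rw [if_pos hd, if_pos hd, if_pos]
            rw [← hv, hd]
          · rw [if_neg hd, if_neg hd]
      · rw [if_neg hv, if_neg hv]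
        have f1 : (if d = (⟨(a, b), h⟩ : G.Dart) then (if a = v then 1 else 0) else 0 : ZMod 2) = 0 := by
          by_cases hd : d = (⟨(a, b), h⟩ : G.Dart)
          · rw [if_pos hd, if_neg]
            intro h'; apply hv; rw [hd]; exact h'
          · rw [if_neg hd]
        have f2 : (if d = (⟨(b, a), h.symm⟩ : G.Dart) then (if b = v then 1 else 0) else 0 : ZMod 2) = 0 := by
          by_cases hd : d = (⟨(b, a), h.symm⟩ : G.Dart)
          · rw [if_pos hd, if_neg]
            intro h'; apply hv; rw [hd]; exact h'
          · rw [if_neg hd]
        rw [f1, f2]; simp
    rw [sum_congr rfl fun d _ => key d, sum_add_distrib, sum_add_distrib, ih]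
    simp only [sum_ite_eq', mem_univ, if_true]
    have h2 : ∀ x y z : ZMod 2, x + y + (y + z) = x + z := by decide
    simp only [eq_comm (a := a) (b := v), eq_comm (a := b) (b := v)]
    exact h2 _ _ _

end P7

open P7 in
/-- L7: the cycle space is spanned by cycles -/
theorem done7 : St7 := by
  classical
  intro V _ _ G _ S B hB
  have main : ∀ n : ℕ, ∀ z ∈ cyc G S, (univ.filter fun d : G.Dart => z d ≠ 0).card ≤ n → z ∈ B := by
    intro n
    induction n with
    | zero =>
      intro z hz hn
      have : z = 0 := by
        funext d
        by_contra hd
        have : d ∈ (univ.filter fun d : G.Dart => z d ≠ 0) := by simpa using hd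
        have := card_pos.mpr ⟨d, this⟩
        omega
      rw [this]; exact B.zero_mem
    | succ n ih =>
      intro z hz hn
      by_cases hz0 : z = 0
      · rw [hz0]; exact B.zero_mem
      obtain ⟨d0, hd0⟩ : ∃ d, z d ≠ 0 := by
        by_contra hcon
        push Not at hcon
        exact hz0 (funext hcon)
      obtain ⟨hs, hS, hv⟩ := hz
      -- the support graph
      let H : SimpleGraph V :=
        { Adj := fun a b => ∃ h : G.Adj a b, z ⟨(a, b), h⟩ ≠ 0
          symm := ⟨by
            rintro a b ⟨h, hz⟩
            refine ⟨h.symm, ?_⟩
            have := hs ⟨(a, b), h⟩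
            rw [← this] at hz
            exact hz⟩
          loopless := ⟨by
            rintro a ⟨h, _⟩
            exact G.loopless.irrefl a h⟩ }
      have hHG : H ≤ G := fun a b h => h.1
      have hHd : ∀ d : G.Dart, H.Adj d.fst d.snd ↔ z d ≠ 0 := by
        intro d
        constructor
        · rintro ⟨h, h'⟩; exact h'
        · intro h; exact ⟨d.adj, h⟩
      have two : ∀ x : ZMod 2, x ≠ 0 → x = 1 := by decide
      have two' : ∀ x : ZMod 2, x + x = 0 := by decide
      -- H is not acyclic
      have hnac : ¬ H.IsAcyclic := by
        rw [isAcyclic_iff_forall_adj_isBridge]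
        intro hac
        have hbr := hac ((hHd d0).2 hd0)
        rw [isBridge_iff] at hbr
        set C : V → Prop := fun x => (H.deleteEdges {s(d0.fst, d0.snd)}).Reachable d0.fst x with hC
        have hsum : ∑ v : V, (if C v then ∑ d : G.Dart, (if d.fst = v then z d else 0) else 0) = 0 :=
          sum_eq_zero fun v _ => by rw [hv v]; simp
        have hsum2 : ∑ v : V, (if C v then ∑ d : G.Dart, (if d.fst = v then z d else 0) else 0) =
            ∑ d : G.Dart, (if C d.fst then z d else 0) := by
          have : ∀ v : V, (if C v then ∑ d : G.Dart, (if d.fst = v then z d else 0) else 0) =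
              ∑ d : G.Dart, (if d.fst = v then (if C d.fst then z d else 0) else 0) := by
            intro v
            by_cases hCv : C v
            · rw [if_pos hCv]
              refine sum_congr rfl fun d _ => ?_
              by_cases hdv : d.fst = v
              · rw [if_pos hdv, if_pos hdv, if_pos (by rw [hdv]; exact hCv)]
              · rw [if_neg hdv, if_neg hdv]
            · rw [if_neg hCv]
              symm
              refine sum_eq_zero fun d _ => ?_
              by_cases hdv : d.fst = v
              · rw [if_pos hdv, if_neg (by rw [hdv]; exact hCv)]
              · rw [if_neg hdv]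
          rw [sum_congr rfl fun v _ => this v, sum_comm]
          refine sum_congr rfl fun d _ => ?_
          simp
        rw [hsum2] at hsum
        have hsplit : ∀ d : G.Dart, (if C d.fst then z d else 0) =
            (if C d.fst ∧ C d.snd then z d else 0) + (if d = d0 then z d else 0) := by
          intro d
          by_cases h1 : C d.fst
          · by_cases h2 : C d.snd
            · have hne : d ≠ d0 := by
                rintro rfl
                exact hbr h2
              rw [if_pos h1, if_pos ⟨h1, h2⟩, if_neg hne, add_zero]
            · rw [if_pos h1, if_neg (fun h => h2 h.2), zero_add]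
              by_cases hd : d = d0
              · rw [if_pos hd]
              · rw [if_neg hd]
                by_contra hzd
                have hadj : H.Adj d.fst d.snd := (hHd d).2 hzd
                apply h2
                refine h1.trans (Adj.reachable ?_)
                rw [deleteEdges_adj]
                refine ⟨hadj, ?_⟩
                rw [Set.mem_singleton_iff]
                intro he
                have he' : d.edge = d0.edge := he
                rw [dart_edge_eq_iff] at he'
                rcases he' with he' | he'
                · exact hd he'
                · apply h2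
                  rw [he']
                  exact Reachable.refl _
          · have hne : d ≠ d0 := by
              rintro rfl
              exact h1 (Reachable.refl _)
            rw [if_neg h1, if_neg (fun h => h1 h.1), if_neg hne, add_zero]
        rw [sum_congr rfl fun d _ => hsplit d, sum_add_distrib, sum_ite_eq' univ d0,
          if_pos (mem_univ _)] at hsum
        have hinv : ∑ d : G.Dart, (if C d.fst ∧ C d.snd then z d else 0) = 0 := by
          refine sum_involution (fun d _ => d.symm) ?_ ?_ ?_ ?_
          · intro d _
            have : (if C d.symm.fst ∧ C d.symm.snd then z d.symm else 0) =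
                (if C d.fst ∧ C d.snd then z d else 0) := by
              rw [hs]
              have : (C d.symm.fst ∧ C d.symm.snd) ↔ (C d.fst ∧ C d.snd) :=
                ⟨fun h => ⟨h.2, h.1⟩, fun h => ⟨h.2, h.1⟩⟩
              by_cases h : C d.fst ∧ C d.snd
              · rw [if_pos h, if_pos (this.2 h)]
              · rw [if_neg h, if_neg (fun h' => h (this.1 h'))]
            rw [this]
            exact two' _
          · intro d _ _
            exact d.symm_ne
          · intro d _; exact mem_univ _
          · intro d _; exact d.symm_symm
        rw [hinv, zero_add] at hsum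
        exact hd0 hsum
      -- a cycle in H
      simp only [IsAcyclic] at hnac
      push Not at hnac
      obtain ⟨u, p, hp⟩ := hnac
      have hp' : (p.mapLe hHG).IsCycle := hp.mapLe hHG
      have hedges : (p.mapLe hHG).edges = p.edges := by
        exact Walk.edges_mapLe_eq_edges hHG p
      have hsupp : ∀ v ∈ (p.mapLe hHG).support, v ∈ S := by
        intro v hv'
        rw [Walk.support_mapLe_eq_support] at hv'
        obtain ⟨w, hw⟩ : ∃ w, H.Adj v w := by
          have hnn : ¬ p.Nil := hp.not_nil
          obtain ⟨e, he, hve⟩ := (Walk.mem_support_iff_exists_mem_edges_of_not_nil hnn).1 hv'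
          have he' := p.edges_subset_edgeSet he
          obtain ⟨w, rfl⟩ := Sym2.mem_iff_exists.1 hve
          exact ⟨w, he'⟩
        obtain ⟨hG, hzw⟩ := hw
        by_contra hvS
        apply hzw
        apply hS
        intro h
        exact hvS h.1
      have hchain := hB u (p.mapLe hHG) hp' hsupp
      have hval : ∀ d : G.Dart, chain (p.mapLe hHG) d = if d.edge ∈ p.edges then 1 else 0 := by
        intro d
        rw [chain_trail _ hp'.isTrail, hedges]
      have hedH : ∀ d : G.Dart, d.edge ∈ p.edges → z d = 1 := by
        intro d hd
        have := p.edges_subset_edgeSet hd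
        exact two _ ((hHd d).1 this)
      have hchcyc : chain (p.mapLe hHG) ∈ cyc G S := by
        refine ⟨fun d => ?_, fun d hd => ?_, fun v => ?_⟩
        · rw [hval, hval, Dart.edge_symm]
        · rw [hval, if_neg]
          intro hd'
          have := hedH d hd'
          rw [hS d hd] at this
          exact zero_ne_one this
        · rw [sum_chain]
          exact two' _
      have hz' : z - chain (p.mapLe hHG) ∈ cyc G S := Submodule.sub_mem _ ⟨hs, hS, hv⟩ hchcyc
      have hlt : (univ.filter fun d : G.Dart => (z - chain (p.mapLe hHG)) d ≠ 0).card ≤ n := by
        have hss : (univ.filter fun d : G.Dart => (z - chain (p.mapLe hHG)) d ≠ 0) ⊂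
            (univ.filter fun d : G.Dart => z d ≠ 0) := by
          rw [ssubset_iff_of_subset]
          · obtain ⟨e, he⟩ : ∃ e, e ∈ (p.mapLe hHG).darts := by
              have hnn : ¬ (p.mapLe hHG).Nil := hp'.not_nil
              exact ⟨_, Walk.firstDart_mem_darts hnn⟩
            have hee : e.edge ∈ p.edges := by
              rw [← hedges]
              exact List.mem_map_of_mem he
            refine ⟨e, ?_, ?_⟩
            · simp [hedH e hee]
            · simp [hedH e hee, hval, hee]
          · intro d hd
            simp only [mem_filter, mem_univ, true_and, Pi.sub_apply] at hd ⊢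
            intro hzd
            apply hd
            rw [hzd, hval, if_neg, sub_zero]
            intro hde
            rw [hedH d hde] at hzd
            exact one_ne_zero hzd
        have := card_lt_card hss
        omega
      have := ih _ hz' hlt
      have h3 := B.add_mem this hchain
      rwa [sub_add_cancel] at h3
  intro z hz
  exact main _ z hz le_rfl

end Pool.Agent.R740.EF
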