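import Pool.Agent.R740.EF.Stm

set_option autoImplicit false

/-!
# Regions
-/

namespace Pool.Agent.R740.EF

open SimpleGraph Finset

section Balanced
variable {V : Type} [DecidableEq V] {G : SimpleGraph V}

/-- balanced antisymmetric sets of darts -/
theorem balanced_four (D : Finset G.Dart)
    (hbal : ∀ v, ∑ d ∈ D, (((if d.fst = v then 1 else 0) : ℤ) - if d.snd = v then 1 else 0) = 0)
    (hanti : ∀ d ∈ D, d.symm ∉ D) (heven : Even D.card) (hne : D.Nonempty) :
    4 ≤ D.card ∧ (D.card = 4 → ∃ a b c x, G.Adj a b ∧ G.Adj b c ∧ G.Adj c x ∧ G.Adj x a ∧ a ≠ c ∧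
      b ≠ x ∧ (∃ d ∈ D, d.fst = a) ∧ (∃ d ∈ D, d.fst = b) ∧ (∃ d ∈ D, d.fst = c) ∧
      (∃ d ∈ D, d.fst = x)) := by
  -- the next dart
  have hnext : ∀ d ∈ D, ∃ e ∈ D, e.fst = d.snd ∧ e.snd ≠ d.fst := by
    intro d hd
    by_contra hcon
    push Not at hcon
    have hno : ∀ e ∈ D, e.fst ≠ d.snd := by
      intro e he h
      have h1 := hcon e he h
      apply hanti d hd
      have : d.symm = e := by
        apply Dart.ext
        exact Prod.ext h.symm h1.symm
      rw [this]
      exact he
    have h2 := hbal d.snd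
    have h3 : ∑ e ∈ D, (((if e.fst = d.snd then 1 else 0) : ℤ) - if e.snd = d.snd then 1 else 0) ≤
        ∑ e ∈ D, (if e = d then (-1 : ℤ) else 0) := by
      refine sum_le_sum fun e he => ?_
      rw [if_neg (hno e he)]
      split_ifs with h4 h5 h5
      · norm_num
      · norm_num
      · exact absurd (by rw [h5]) h4
      · norm_num
    rw [h2, sum_ite_eq' D d, if_pos hd] at h3
    norm_num at h3
  obtain ⟨d0, h0⟩ := hne
  obtain ⟨d1, h1, e1, f1⟩ := hnext d0 h0
  obtain ⟨d2, h2, e2, f2⟩ := hnext d1 h1
  obtain ⟨d3, h3, e3, f3⟩ := hnext d2 h2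
  have a0 := d0.adj
  have a1 := d1.adj
  have a2 := d2.adj
  have a3 := d3.adj
  have n01 : d0 ≠ d1 := by
    rintro rfl
    exact a0.ne e1
  have n12 : d1 ≠ d2 := by
    rintro rfl
    exact a1.ne e2
  have n02 : d0 ≠ d2 := by
    intro h
    apply f1
    rw [h]
    exact e2.symm
  have hsub : ({d0, d1, d2} : Finset G.Dart) ⊆ D := by
    intro d hd
    simp only [mem_insert, mem_singleton] at hd
    rcases hd with rfl | rfl | rfl
    · exact h0
    · exact h1
    · exact h2
  have hc3 : ({d0, d1, d2} : Finset G.Dart).card = 3 := card_eq_three.2 ⟨d0, d1, d2, n01, n02, n12, rfl⟩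
  have hge : 3 ≤ D.card := hc3 ▸ card_le_card hsub
  have hge4 : 4 ≤ D.card := by
    rcases heven with ⟨k, hk⟩
    omega
  refine ⟨hge4, ?_⟩
  intro h4
  have hone : (D \ {d0, d1, d2}).card = 1 := by
    rw [card_sdiff_of_subset hsub, h4, hc3]
  obtain ⟨e, he⟩ := card_eq_one.1 hone
  have heD : e ∈ D \ {d0, d1, d2} := by rw [he]; exact mem_singleton_self e
  rw [mem_sdiff] at heD
  simp only [mem_insert, mem_singleton, not_or] at heD
  obtain ⟨heD, ne0, ne1, ne2⟩ := heD
  have hD : D = insert d0 (insert d1 (insert d2 {e})) := by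
    have h5 : D = D \ {d0, d1, d2} ∪ {d0, d1, d2} := (sdiff_union_of_subset hsub).symm
    rw [h5, he]
    ext d
    simp only [mem_union, mem_insert, mem_singleton]
    tauto
  have hsum : ∀ v, (((if d0.fst = v then 1 else 0) : ℤ) - if d0.snd = v then 1 else 0) +
      ((((if d1.fst = v then 1 else 0) : ℤ) - if d1.snd = v then 1 else 0) +
      ((((if d2.fst = v then 1 else 0) : ℤ) - if d2.snd = v then 1 else 0) +
      (((if e.fst = v then 1 else 0) : ℤ) - if e.snd = v then 1 else 0))) = 0 := by
    intro v
    have := hbal v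
    rw [hD, sum_insert (by simp [n01, n02, Ne.symm ne0]), sum_insert (by simp [n12, Ne.symm ne1]),
      sum_insert (by simp [Ne.symm ne2]), sum_singleton] at this
    exact this
  have hx : d2.snd ≠ d0.fst := by
    intro h
    have h6 := hsum e.fst
    rw [e1, e2, h] at h6
    simp only [if_true] at h6
    have h7 : e.snd = e.fst := by
      by_contra hcon
      rw [if_neg hcon] at h6
      linarith
    exact e.adj.ne h7.symm
  have h3e : d3 = e := by
    have h8 : d3 ∈ D := h3
    rw [hD] at h8
    simp only [mem_insert, mem_singleton] at h8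
    rcases h8 with h | h | h | h
    · exfalso
      rw [h] at e3
      exact hx e3.symm
    · exfalso
      rw [h] at e3
      exact f2 (by rw [← e3])
    · exfalso
      rw [h] at e3
      exact a2.ne e3
    · exact h
  have hy : d3.snd = d0.fst := by
    have h9 := hsum d0.fst
    by_contra hcon
    rw [← h3e, if_neg hcon, if_neg hx, if_pos rfl, if_neg a0.ne', if_neg f1] at h9
    have : ∀ p : Prop, ∀ [Decidable p], (0 : ℤ) ≤ if p then 1 else 0 := by
      intro p _
      split_ifs <;> norm_num
    have t1 := this (d1.fst = d0.fst)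
    have t2 := this (d2.fst = d0.fst)
    have t3 := this (d3.fst = d0.fst)
    linarith
  refine ⟨d0.fst, d0.snd, d1.snd, d2.snd, a0, ?_, ?_, ?_, f1.symm, ?_, ⟨d0, h0, rfl⟩, ⟨d1, h1, e1⟩,
    ⟨d2, h2, e2⟩, ⟨d3, h3, e3⟩⟩
  · rw [← e1]; exact a1
  · rw [← e2]; exact a2
  · rw [← e3, ← hy]; exact a3
  · rw [← e1]; exact f2.symm

end Balanced

variable {V : Type} [Fintype V] [DecidableEq V] {G : SimpleGraph V} [DecidableRel G.Adj]
  (R : Rotation G) (S : Finset V)

theorem reg_face (d : G.Dart) : R.reg S (R.face d) = R.reg S d :=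
  (Quot.sound (Rotation.rel.face d)).symm

theorem reg_cross {d : G.Dart} (h : ¬ inS S d) : R.reg S d.symm = R.reg S d :=
  (Quot.sound (Rotation.rel.cross d h)).symm

theorem face_symm (d : G.Dart) : R.face d.symm = R.next d := by
  show R.next d.symm.symm = _
  rw [Dart.symm_symm]

theorem reg_next (d : G.Dart) : R.reg S (R.next d) = R.reg S d.symm := by
  rw [← face_symm, reg_face]

instance : Finite (R.Reg S) := inferInstanceAs (Finite (Quot _))

noncomputable instance : Fintype (R.Reg S) := Fintype.ofFinite _

open Classical in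
/-- the darts on the boundary of a region -/
noncomputable def bd (X : R.Reg S) : Finset G.Dart :=
  univ.filter fun d => R.reg S d = X ∧ R.reg S d.symm ≠ X

theorem mem_bd {X : R.Reg S} {d : G.Dart} :
    d ∈ bd R S X ↔ R.reg S d = X ∧ R.reg S d.symm ≠ X := by
  classical
  simp [bd]

theorem bd_inS {X : R.Reg S} {d : G.Dart} (h : d ∈ bd R S X) : inS S d := by
  rw [mem_bd] at h
  by_contra hcon
  exact h.2 ((reg_cross R S hcon).trans h.1)

theorem bd_anti {X : R.Reg S} {d : G.Dart} (h : d ∈ bd R S X) : d.symm ∉ bd R S X := by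
  rw [mem_bd] at h ⊢
  exact fun h' => h.2 h'.1

theorem bd_balanced (X : R.Reg S) (v : V) :
    ∑ d ∈ bd R S X, (((if d.fst = v then 1 else 0) : ℤ) - if d.snd = v then 1 else 0) = 0 := by
  classical
  set P : Finset G.Dart := univ.filter fun d => d.fst = v ∧ R.reg S d = X with hP
  set Q : Finset G.Dart := univ.filter fun d => d.fst = v ∧ R.reg S d.symm = X with hQ
  have hPQ : Q.card = P.card := by
    apply card_bij fun d _ => R.next d
    · intro d hd
      rw [hQ, mem_filter] at hd
      rw [hP, mem_filter, R.fst_next, reg_next]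
      exact ⟨mem_univ _, hd.2⟩
    · intro d _ e _ h
      exact R.next.injective h
    · intro d hd
      refine ⟨R.next.symm d, ?_, R.next.apply_symm_apply d⟩
      rw [hP, mem_filter] at hd
      rw [hQ, mem_filter]
      refine ⟨mem_univ _, ?_, ?_⟩
      · have := R.fst_next (R.next.symm d)
        rw [R.next.apply_symm_apply] at this
        rw [← this]
        exact hd.2.1
      · have := reg_next R S (R.next.symm d)
        rw [R.next.apply_symm_apply] at this
        rw [← this]
        exact hd.2.2
  have e1 : (bd R S X).filter (fun d => d.fst = v) = P \ Q := by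
    ext d
    simp only [mem_filter, mem_bd, hP, hQ, mem_sdiff, mem_univ, true_and]
    tauto
  have e2 : ((bd R S X).filter (fun d => d.snd = v)).card = (Q \ P).card := by
    apply card_bij fun d _ => d.symm
    · intro d hd
      simp only [mem_filter, mem_bd] at hd
      simp only [hP, hQ, mem_sdiff, mem_filter, mem_univ, true_and, Dart.symm_symm]
      exact ⟨⟨hd.2, hd.1.1⟩, fun h => hd.1.2 h.2⟩
    · intro d _ e _ h
      exact Dart.symm_involutive.injective h
    · intro d hd
      refine ⟨d.symm, ?_, Dart.symm_symm d⟩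
      simp only [hP, hQ, mem_sdiff, mem_filter, mem_univ, true_and] at hd
      simp only [mem_filter, mem_bd, Dart.symm_symm]
      exact ⟨⟨hd.1.2, fun h => hd.2 ⟨hd.1.1, h⟩⟩, hd.1.1⟩
  rw [sum_sub_distrib, ← sum_filter, ← sum_filter, sum_const, sum_const, e1, e2,
    card_sdiff_comm hPQ, sub_self]

/-- the sum of the sizes of the boundaries -/
theorem sum_bd_le [DecidablePred (inS (G := G) S)] :
    ∑ X : R.Reg S, (bd R S X).card ≤ (univ.filter fun d : G.Dart => inS S d).card := by
  classical
  rw [← card_biUnion]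
  · apply card_le_card
    intro d hd
    rw [mem_biUnion] at hd
    obtain ⟨X, _, hX⟩ := hd
    rw [mem_filter]
    exact ⟨mem_univ _, bd_inS R S hX⟩
  · intro X _ Y _ hXY
    rw [Function.onFun, Finset.disjoint_left]
    intro d hd hd'
    rw [mem_bd] at hd hd'
    exact hXY (hd.1.symm.trans hd'.1)

open Classical in
/-- the regions whose boundary touches a vertex -/
theorem touch_le (v : V) :
    (univ.filter fun X : R.Reg S => ∃ d ∈ bd R S X, d.fst = v).card ≤
      (S.filter (G.Adj v)).card := by
  classical
  have h1 : (univ.filter fun d : G.Dart => d.fst = v ∧ inS S d).card ≤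
      (S.filter (G.Adj v)).card := by
    apply card_le_card_of_injOn fun d => d.snd
    · intro d hd
      simp only [coe_filter, mem_univ, true_and, Set.mem_setOf_eq] at hd
      simp only [coe_filter, Set.mem_setOf_eq]
      exact ⟨hd.2.2, hd.1 ▸ d.adj⟩
    · intro d hd e he h
      simp only [coe_filter, mem_univ, true_and, Set.mem_setOf_eq] at hd he
      exact Dart.ext _ _ (Prod.ext (hd.1.trans he.1.symm) h)
  refine le_trans ?_ h1
  refine le_trans (card_le_card ?_) (card_image_le (s := univ.filter fun d : G.Dart =>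
    d.fst = v ∧ inS S d) (f := R.reg S))
  intro X hX
  rw [mem_filter] at hX
  obtain ⟨_, d, hd, hdv⟩ := hX
  rw [mem_image]
  refine ⟨d, ?_, ((mem_bd R S).1 hd).1⟩
  rw [mem_filter]
  exact ⟨mem_univ _, hdv, bd_inS R S hd⟩

/-- the boundary of a region has an even number of edges -/
theorem bd_even (hR : R.EvenFaced) (X : R.Reg S) : Even (bd R S X).card := by
  classical
  set Y : Finset G.Dart := univ.filter fun d => R.reg S d = X with hY
  have h1 : Even Y.card := by
    letI : Setoid G.Dart := Equiv.Perm.SameCycle.setoid R.face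
    rw [card_eq_sum_card_image (fun d => (Quotient.mk _ d : R.Face)) Y]
    refine even_sum _ fun F hF => ?_
    rw [mem_image] at hF
    obtain ⟨d, hd, rfl⟩ := hF
    have h2 : (Y.filter fun e => (Quotient.mk _ e : R.Face) = Quotient.mk _ d).card =
        Nat.card {e // R.face.SameCycle d e} := by
      rw [Nat.card_eq_fintype_card, Fintype.card_subtype]
      congr 1
      ext e
      simp only [mem_filter, mem_univ, true_and]
      constructor
      · rintro ⟨_, h⟩
        exact Quotient.exact h.symm
      · intro h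
        refine ⟨?_, (Quotient.sound h.symm)⟩
        rw [hY, mem_filter] at hd ⊢
        refine ⟨mem_univ _, ?_⟩
        rw [← hd.2]
        obtain ⟨i, hi⟩ := h
        have key : ∀ (n : ℕ) (a : G.Dart), R.reg S ((R.face ^ n) a) = R.reg S a := by
          intro n
          induction n with
          | zero => intro a; rfl
          | succ n ih => intro a; rw [pow_succ', Equiv.Perm.mul_apply, reg_face, ih]
        rcases i with n | n
        · rw [← hi]
          exact key n d
        · have h3 : d = (R.face ^ (n + 1)) e := by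
            rw [← hi, zpow_negSucc]
            exact ((R.face ^ (n + 1)).apply_symm_apply d).symm
          rw [h3, key]
    rw [h2]
    exact hR d
  have h3 : Even (Y.filter fun d => R.reg S d.symm = X).card := by
    rw [← ZMod.natCast_eq_zero_iff_even, ← nsmul_one, ← sum_const]
    apply sum_involution (fun d _ => d.symm)
    · intro d _
      exact CharTwo.add_self_eq_zero _
    · intro d _ _ h
      exact d.symm_ne h
    · intro d _
      exact Dart.symm_symm d
    · intro d hd
      rw [mem_filter, hY, mem_filter] at hd ⊢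
      exact ⟨⟨mem_univ _, hd.2⟩, by rw [Dart.symm_symm]; exact hd.1.2⟩
  have h4 : Y.filter (fun d => ¬ R.reg S d.symm = X) = bd R S X := by
    ext d
    rw [mem_filter, mem_bd, hY, mem_filter]
    simp only [mem_univ, true_and, ne_eq]
  have h5 := card_filter_add_card_filter_not (s := Y) (fun d => R.reg S d.symm = X)
  rw [h4] at h5
  rw [← h5] at h1
  exact (Nat.even_add.1 h1).1 h3

/-- a region with empty boundary contains everything -/
theorem bd_nonempty (hG : G.Connected) {X : R.Reg S} (hX : bd R S X = ∅) (Y : R.Reg S) :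
    Y = X := by
  obtain ⟨d0, rfl⟩ := Quot.exists_rep X
  obtain ⟨e0, rfl⟩ := Quot.exists_rep Y
  change R.reg S e0 = R.reg S d0
  change bd R S (R.reg S d0) = ∅ at hX
  have hsymm : ∀ d, R.reg S d = R.reg S d0 → R.reg S d.symm = R.reg S d0 := by
    intro d hd
    by_contra hcon
    have : d ∈ bd R S (R.reg S d0) := (mem_bd R S).2 ⟨hd, hcon⟩
    rw [hX] at this
    exact notMem_empty _ this
  have hnext : ∀ d, R.reg S d = R.reg S d0 → R.reg S (R.next d) = R.reg S d0 := by
    intro d hd
    rw [reg_next]
    exact hsymm d hd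
  have hprev : ∀ d, R.reg S (R.next d) = R.reg S d0 → R.reg S d = R.reg S d0 := by
    intro d hd
    rw [reg_next] at hd
    have := hsymm _ hd
    rw [Dart.symm_symm] at this
    exact this
  have hcyc : ∀ d e, d.fst = e.fst → R.reg S d = R.reg S d0 → R.reg S e = R.reg S d0 := by
    intro d e hde hd
    obtain ⟨i, hi⟩ := R.sameCycle d e hde
    have key : ∀ (n : ℕ) (a : G.Dart), R.reg S ((R.next ^ n) a) = R.reg S d0 ↔
        R.reg S a = R.reg S d0 := by
      intro n
      induction n with
      | zero => intro a; exact Iff.rfl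
      | succ n ih =>
        intro a
        rw [pow_succ', Equiv.Perm.mul_apply]
        exact ⟨fun h => (ih a).1 (hprev _ h), fun h => hnext _ ((ih a).2 h)⟩
    rcases i with n | n
    · rw [← hi]
      exact (key n d).2 hd
    · have h3 : d = (R.next ^ (n + 1)) e := by
        rw [← hi, zpow_negSucc]
        exact ((R.next ^ (n + 1)).apply_symm_apply d).symm
      rw [h3, key] at hd
      exact hd
  have hwalk : ∀ (u v : V) (p : G.Walk u v), (∀ d : G.Dart, d.fst = u → R.reg S d = R.reg S d0) →
      ∀ d : G.Dart, d.fst = v → R.reg S d = R.reg S d0 := by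
    intro u v p
    induction p with
    | nil => exact fun h => h
    | @cons u v w h p ih =>
      intro hu
      apply ih
      intro d hd
      have h1 := hu ⟨(u, v), h⟩ rfl
      have h2 := hsymm _ h1
      exact hcyc _ _ hd.symm h2
  obtain ⟨p⟩ := hG.preconnected d0.fst e0.fst
  exact hwalk _ _ p (fun d hd => hcyc d0 d hd.symm rfl) e0 rfl

end Pool.Agent.R740.EF
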