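import Pool.Agent.R740.EF.Col
import Pool.Agent.R740.EF.Reg
import Pool.Agent.R740.EF.L1
import Pool.Agent.R740.EF.L2
import Pool.Agent.R740.EF.L3
import Pool.Agent.R740.EF.L4
import Pool.Agent.R740.EF.L6
import Pool.Agent.R740.EF.L7

set_option autoImplicit false

/-!
# The theorem
-/

namespace Pool.Agent.R740.EF

open SimpleGraph Finset

variable {V : Type} [Fintype V] [DecidableEq V] {G : SimpleGraph V} [DecidableRel G.Adj]

theorem done5 (R : Rotation G) : bdy R ≤ cyc G Finset.univ := by
  rintro z ⟨W, hW, hz⟩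
  refine ⟨fun d => ?_, fun d hd => absurd ⟨mem_univ _, mem_univ _⟩ hd, fun v => ?_⟩
  · rw [hz, hz, Dart.symm_symm, add_comm]
  · have h1 : ∀ d : G.Dart, W d.symm = W (R.next d) := by
      intro d
      rw [← hW d.symm, face_symm]
    have h2 : ∑ d : G.Dart, (if d.fst = v then z d else 0) =
        (∑ d : G.Dart, if d.fst = v then W d else 0) +
          ∑ d : G.Dart, if d.fst = v then W (R.next d) else 0 := by
      rw [← sum_add_distrib]
      refine sum_congr rfl fun d _ => ?_
      by_cases h : d.fst = v
      · rw [if_pos h, if_pos h, if_pos h, hz, h1]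
      · rw [if_neg h, if_neg h, if_neg h, add_zero]
    have h3 : (∑ d : G.Dart, if d.fst = v then W (R.next d) else 0) =
        ∑ d : G.Dart, if d.fst = v then W d else 0 := by
      rw [← Equiv.sum_comp R.next (fun d => if d.fst = v then W d else 0)]
      refine sum_congr rfl fun d _ => ?_
      rw [R.fst_next]
    rw [h2, h3]
    exact CharTwo.add_self_eq_zero _

theorem cyc_le_univ (S : Finset V) : cyc G S ≤ cyc G Finset.univ := by
  rintro z ⟨h1, _, h3⟩
  exact ⟨h1, fun d hd => absurd ⟨mem_univ _, mem_univ _⟩ hd, h3⟩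

/-- the number of edges inside `S` (general case) -/
theorem count_genus (R : Rotation G) {S : Finset V} (hS : S.Nonempty) {g : ℕ} (hG : G.Connected)
    (hg : R.GenusLE g) (hd : Nonempty G.Dart) :
    eS G S + 2 ≤ S.card + Fintype.card (R.Reg S) + 2 * g := by
  have h1 := done1 V G S hS
  have h2 := L2.done2 V G hG
  have h3 := done3 V G R hG
  have h4 := L4.done4 V G R S hd
  have h5 : Module.finrank (ZMod 2) (cyc G S ⊔ bdy R : Submodule (ZMod 2) (G.Dart → ZMod 2)) ≤
      Module.finrank (ZMod 2) (cyc G Finset.univ) :=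
    Submodule.finrank_mono (sup_le (cyc_le_univ S) (done5 R))
  have h6 := Submodule.finrank_sup_add_finrank_inf_eq (cyc G S) (bdy R)
  have h7 : Nat.card G.edgeSet + 2 ≤ Nat.card V + Nat.card R.Face + 2 * g := hg
  rw [Nat.card_eq_fintype_card (α := V)] at h7
  rw [Nat.card_eq_fintype_card (α := R.Reg S)] at h4
  omega

/-- the number of edges inside `S`, if all cycles inside `S` are boundaries -/
theorem count_null (R : Rotation G) {S : Finset V} (hS : S.Nonempty)
    (hB : cyc G S ≤ bdy R) (hd : Nonempty G.Dart) :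
    eS G S + 2 ≤ S.card + Fintype.card (R.Reg S) := by
  have h1 := done1 V G S hS
  have h4 := L4.done4 V G R S hd
  rw [inf_eq_left.2 hB] at h4
  rw [Nat.card_eq_fintype_card (α := R.Reg S)] at h4
  omega

theorem card_darts_in (S : Finset V) [DecidablePred (inS (G := G) S)] :
    (univ.filter fun d : G.Dart => inS S d).card = 2 * eS G S := by
  classical
  have h1 : (univ.filter fun d : G.Dart => inS S d).card =
      ∑ e ∈ (univ : Finset G.edgeSet).filter (fun e => ∀ v ∈ e.1, v ∈ S),
        ((univ.filter fun d : G.Dart => inS S d).filter fun d => d.edge = e.1).card := by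
    have := card_eq_sum_card_fiberwise (s := univ.filter fun d : G.Dart => inS S d)
      (t := (univ : Finset G.edgeSet).filter (fun e => ∀ v ∈ e.1, v ∈ S))
      (f := fun d => (⟨d.edge, d.edge_mem⟩ : G.edgeSet)) (by
        intro d hd
        simp only [coe_filter, mem_univ, true_and] at hd ⊢
        intro v hv
        change v ∈ s(d.fst, d.snd) at hv
        rw [Sym2.mem_iff] at hv
        rcases hv with rfl | rfl
        · exact hd.1
        · exact hd.2)
    rw [this]
    refine sum_congr rfl fun e _ => ?_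
    congr 1
    ext d
    simp only [mem_filter, mem_univ, true_and, Subtype.ext_iff]
  have h2 : ∀ e ∈ (univ : Finset G.edgeSet).filter (fun e => ∀ v ∈ e.1, v ∈ S),
      ((univ.filter fun d : G.Dart => inS S d).filter fun d => d.edge = e.1).card = 2 := by
    intro e he
    rw [mem_filter] at he
    rw [← G.dart_edge_fiber_card e.1 e.2]
    congr 1
    ext d
    simp only [mem_filter, mem_univ, true_and]
    constructor
    · exact fun h => h.2
    · intro h
      refine ⟨⟨he.2 _ ?_, he.2 _ ?_⟩, h⟩
      · rw [← h]; exact Sym2.mem_mk_left _ _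
      · rw [← h]; exact Sym2.mem_mk_right _ _
  rw [h1, sum_congr rfl h2, sum_const, smul_eq_mul, mul_comm, eS, Nat.card_eq_fintype_card,
    Fintype.card_subtype]

theorem card_darts_in' (S : Finset V) [DecidablePred (inS (G := G) S)] :
    (univ.filter fun d : G.Dart => inS S d).card = ∑ v ∈ S, (S.filter (G.Adj v)).card := by
  classical
  rw [card_eq_sum_card_fiberwise (s := univ.filter fun d : G.Dart => inS S d) (t := S)
    (f := fun d => d.fst) (fun d hd => by
      simp only [coe_filter, mem_univ, true_and] at hd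
      exact hd.1)]
  refine sum_congr rfl fun v hv => ?_
  apply card_bij fun d _ => d.snd
  · intro d hd
    simp only [mem_filter, mem_univ, true_and] at hd ⊢
    exact ⟨hd.1.2, hd.2 ▸ d.adj⟩
  · intro d hd e he h
    simp only [mem_filter, mem_univ, true_and] at hd he
    exact Dart.ext _ _ (Prod.ext (hd.2.trans he.2.symm) h)
  · intro w hw
    rw [mem_filter] at hw
    refine ⟨⟨(v, w), hw.2⟩, ?_, rfl⟩
    simp only [mem_filter, mem_univ, true_and, and_true]
    exact ⟨hv, hw.1⟩

/-- triangles are contractible if the edge width is large, so there are none -/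
theorem no_triangle (R : Rotation G) (hR : R.EvenFaced) {N : ℕ} (hN : 4 ≤ N)
    (hw : R.EdgeWidthGE N) {a b c : V} (hab : G.Adj a b) (hbc : G.Adj b c) (hca : G.Adj c a) :
    False := by
  set p : G.Walk a a := .cons hab (.cons hbc (.cons hca .nil)) with hp
  have hcyc : p.IsCycle := by
    rw [hp, Walk.cons_isCycle_iff]
    constructor
    · simp [Walk.cons_isPath_iff, hbc.ne, hca.ne, hab.ne']
    · simp [hab.ne, hbc.ne, hca.ne, hab.ne', hbc.ne', hca.ne']
  by_cases hcon : R.Contractible p
  · have := done6b V G R a a p .nil hR hcon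
    rw [hp] at this
    simp only [Walk.length_cons, Walk.length_nil] at this
    exact absurd (this.2 (by decide)) (by decide)
  · have := hw a p hcyc hcon
    rw [hp] at this
    simp only [Walk.length_cons, Walk.length_nil] at this
    omega

/-- small sets carry only null-homologous cycles -/
theorem null_of_small (R : Rotation G) {N : ℕ} (hw : R.EdgeWidthGE N) {S : Finset V}
    (hS : S.card < N) : cyc G S ≤ bdy R := by
  refine done7 V G S _ fun u p hp hpS => ?_
  have hlen : p.length ≤ S.card := by
    have h1 : p.support.tail.toFinset ⊆ S := by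
      intro v hv
      rw [List.mem_toFinset] at hv
      exact hpS v (List.mem_of_mem_tail hv)
    have h2 := card_le_card h1
    rw [List.toFinset_card_of_nodup hp.support_nodup, List.length_tail, Walk.length_support] at h2
    exact h2
  have hcon : R.Contractible p := by
    by_contra hcon
    have := hw u p hp hcon
    omega
  have := done6 V G R u u p .nil hcon
  have e : chain (.nil : G.Walk u u) = 0 := by
    funext d
    simp [chain]
  rw [e, sub_zero] at this
  exact this

/-- **The theorem for connected graphs.** -/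
theorem main (R : Rotation G) {g : ℕ} (hG : G.Connected) (hg : R.GenusLE g) (hR : R.EvenFaced)
    (hw : R.EdgeWidthGE (50 * g + 5)) : Choosable G 4 := by
  classical
  intro C L hL
  by_contra hno
  have hno' : ¬ PC G L univ := by
    rintro ⟨c, h1, h2⟩
    exact hno ⟨c, fun v => h1 v (mem_univ v), fun u v => h2 u (mem_univ u) v (mem_univ v)⟩
  obtain ⟨S, hS, hmin⟩ := exists_critical hno'
  have hdeg : ∀ v ∈ S, 4 ≤ (S.filter (G.Adj v)).card :=
    fun v hv => critical_degree hL hS hmin hv
  have hne : S.Nonempty := by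
    rw [nonempty_iff_ne_empty]
    rintro rfl
    apply hS
    refine ⟨fun v => (card_pos.1 (by have := hL v; omega) : (L v).Nonempty).choose, ?_, ?_⟩
    · intro v hv
      exact absurd hv (notMem_empty v)
    · intro v hv
      exact absurd hv (notMem_empty v)
  have hdart : Nonempty G.Dart := by
    obtain ⟨v, hv⟩ := hne
    have := hdeg v hv
    obtain ⟨w, hw⟩ := card_pos.1 (by omega : 0 < (S.filter (G.Adj v)).card)
    exact ⟨⟨(v, w), (mem_filter.1 hw).2⟩⟩
  -- counting
  have hand := card_darts_in (G := G) S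
  have hand' := card_darts_in' (G := G) S
  have hsumdeg : ∑ v ∈ S, (S.filter (G.Adj v)).card = 2 * eS G S := by rw [← hand', hand]
  have he : 2 * S.card ≤ eS G S := by
    have : S.card * 4 ≤ ∑ v ∈ S, (S.filter (G.Adj v)).card := by
      rw [← smul_eq_mul]
      exact card_nsmul_le_sum S _ 4 hdeg
    omega
  have hn : 1 ≤ S.card := card_pos.2 hne
  set c := Fintype.card (R.Reg S) with hc
  have hbd : ∀ X : R.Reg S, 2 ≤ c → 4 ≤ (bd R S X).card ∧ ((bd R S X).card = 4 →
      ∃ a b c x, G.Adj a b ∧ G.Adj b c ∧ G.Adj c x ∧ G.Adj x a ∧ a ≠ c ∧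
      b ≠ x ∧ (∃ d ∈ bd R S X, d.fst = a) ∧ (∃ d ∈ bd R S X, d.fst = b) ∧
      (∃ d ∈ bd R S X, d.fst = c) ∧ (∃ d ∈ bd R S X, d.fst = x)) := by
    intro X hc2
    apply balanced_four _ (bd_balanced R S X) (fun d hd => bd_anti R S hd) (bd_even R S hR X)
    rw [nonempty_iff_ne_empty]
    intro hX
    have : Fintype.card (R.Reg S) ≤ 1 :=
      Fintype.card_le_one_iff.2 fun Y Z =>
        (bd_nonempty R S hG hX Y).trans (bd_nonempty R S hG hX Z).symm
    omega
  have hsumbd : ∑ X : R.Reg S, (bd R S X).card ≤ 2 * eS G S := by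
    rw [← hand]
    exact sum_bd_le R S
  have h4c : 2 ≤ c → 4 * c ≤ 2 * eS G S := by
    intro hc2
    refine le_trans ?_ hsumbd
    have : Fintype.card (R.Reg S) • 4 ≤ ∑ X : R.Reg S, (bd R S X).card := by
      rw [← card_univ]
      exact card_nsmul_le_sum _ _ 4 fun X _ => (hbd X hc2).1
    rw [smul_eq_mul] at this
    omega
  have hbig : 50 * g + 5 ≤ S.card := by
    by_contra hcon
    push Not at hcon
    have h1 := count_null R hne (null_of_small R hw hcon) hdart
    rcases Nat.lt_or_ge c 2 with h | h
    · omega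
    · have := h4c h
      omega
  have hgen := count_genus R hne hG hg hdart
  have hc2 : 2 ≤ c := by omega
  have h4c' := h4c hc2
  -- the bad vertices
  set Bv := S.filter fun v => 5 ≤ (S.filter (G.Adj v)).card with hBv
  have hBvsum : ∑ v ∈ Bv, (S.filter (G.Adj v)).card ≤ 40 * g := by
    have h1 : ∑ v ∈ Bv, (S.filter (G.Adj v)).card ≤
        ∑ v ∈ S, 5 * ((S.filter (G.Adj v)).card - 4) := by
      calc ∑ v ∈ Bv, (S.filter (G.Adj v)).card
          ≤ ∑ v ∈ Bv, 5 * ((S.filter (G.Adj v)).card - 4) := by
            refine sum_le_sum fun v hv => ?_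
            have := (mem_filter.1 hv).2
            omega
        _ ≤ _ := sum_le_sum_of_subset (filter_subset _ _)
    have h2 : ∑ v ∈ S, ((S.filter (G.Adj v)).card - 4) + 4 * S.card = 2 * eS G S := by
      rw [← hsumdeg]
      have : 4 * S.card = ∑ _v ∈ S, 4 := by rw [sum_const, smul_eq_mul, mul_comm]
      rw [this, ← sum_add_distrib]
      refine sum_congr rfl fun v hv => ?_
      have := hdeg v hv
      omega
    rw [← mul_sum] at h1
    omega
  -- regions with large boundary
  set NQ := (univ : Finset (R.Reg S)).filter fun X => (bd R S X).card ≠ 4 with hNQ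
  have hNQc : NQ.card ≤ 4 * g := by
    have h1 : ∑ X : R.Reg S, 4 + ∑ X ∈ NQ, 2 ≤ ∑ X : R.Reg S, (bd R S X).card := by
      have e : ∑ X ∈ NQ, 2 = ∑ X : R.Reg S, if (bd R S X).card ≠ 4 then 2 else 0 := by
        rw [hNQ, sum_filter]
      rw [e, ← sum_add_distrib]
      refine sum_le_sum fun X _ => ?_
      have h2 := (hbd X hc2).1
      obtain ⟨k, hk⟩ := bd_even R S hR X
      split_ifs with h
      · omega
      · omega
    rw [sum_const, sum_const, card_univ, smul_eq_mul, smul_eq_mul] at h1
    omega
  -- regions touching a bad vertex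
  set T := Bv.biUnion fun v => univ.filter fun X : R.Reg S => ∃ d ∈ bd R S X, d.fst = v with hT
  have hTc : T.card ≤ 40 * g := by
    refine card_biUnion_le.trans (le_trans ?_ hBvsum)
    exact sum_le_sum fun v _ => touch_le R S v
  obtain ⟨X, _, hX⟩ : ∃ X ∈ (univ : Finset (R.Reg S)), X ∉ NQ ∪ T := by
    apply exists_mem_notMem_of_card_lt_card
    refine (card_union_le _ _).trans_lt ?_
    rw [card_univ]
    omega
  rw [mem_union, not_or] at hX
  have hX4 : (bd R S X).card = 4 := by
    by_contra hcon
    exact hX.1 (mem_filter.2 ⟨mem_univ _, hcon⟩)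
  obtain ⟨a, b, c', x, hab, hbc, hcx, hxa, hac, hbx, ta, tb, tc, tx⟩ := (hbd X hc2).2 hX4
  have hgood : ∀ v, (∃ d ∈ bd R S X, d.fst = v) → v ∈ S ∧ (S.filter (G.Adj v)).card ≤ 4 := by
    rintro v ⟨d, hd, rfl⟩
    have hdS := bd_inS R S hd
    refine ⟨hdS.1, ?_⟩
    by_contra hcon
    push Not at hcon
    apply hX.2
    rw [hT, mem_biUnion]
    exact ⟨d.fst, mem_filter.2 ⟨hdS.1, hcon⟩, mem_filter.2 ⟨mem_univ _, d, hd, rfl⟩⟩
  have ga := hgood a ta
  have gb := hgood b tb
  have gc := hgood c' tc
  have gx := hgood x tx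
  exact critical_quad hL hS hmin ga.1 gb.1 gc.1 gx.1 hab hbc hcx hxa hac hbx
    (fun h => no_triangle R hR (by omega) hw hab hbc h.symm)
    (fun h => no_triangle R hR (by omega) hw hbc hcx h.symm)
    ga.2 gb.2 gc.2 gx.2

end Pool.Agent.R740.EF
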