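import Pool.Agent.R740.EF.Defs

set_option autoImplicit false

/-!
# Statements of the pieces of the project EF (MP_caf32e_co, Q1)
-/

namespace Pool.Agent.R740.EF

open SimpleGraph Finset

/-- cycle space of the graph induced on `S`: symmetric functions `z` on the darts with values in
`ZMod 2`, supported on darts with both ends in `S`, with sum `0` at each vertex -/
def cyc {V : Type} [Fintype V] [DecidableEq V] (G : SimpleGraph V) [DecidableRel G.Adj]
    (S : Finset V) : Submodule (ZMod 2) (G.Dart → ZMod 2) where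
  carrier := {z | (∀ d, z d.symm = z d) ∧ (∀ d, ¬ inS S d → z d = 0) ∧
    ∀ v, ∑ d : G.Dart, (if d.fst = v then z d else 0) = 0}
  add_mem' := by
    rintro a b ⟨h1, h2, h3⟩ ⟨k1, k2, k3⟩
    refine ⟨fun d => by simp [h1, k1], fun d hd => by simp [h2 d hd, k2 d hd], fun v => ?_⟩
    calc ∑ d : G.Dart, (if d.fst = v then (a + b) d else 0)
        = (∑ d : G.Dart, if d.fst = v then a d else 0) +
          ∑ d : G.Dart, if d.fst = v then b d else 0 := by
          rw [← sum_add_distrib]
          refine sum_congr rfl fun d _ => ?_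
          by_cases h : d.fst = v
          · rw [if_pos h, if_pos h, if_pos h, Pi.add_apply]
          · rw [if_neg h, if_neg h, if_neg h, add_zero]
      _ = 0 := by rw [h3, k3, add_zero]
  zero_mem' := ⟨fun _ => rfl, fun _ _ => rfl, fun v => by simp⟩
  smul_mem' := by
    rintro c a ⟨h1, h2, h3⟩
    refine ⟨fun d => by simp [h1], fun d hd => by simp [h2 d hd], fun v => ?_⟩
    calc ∑ d : G.Dart, (if d.fst = v then (c • a) d else 0)
        = c * ∑ d : G.Dart, if d.fst = v then a d else 0 := by
          rw [mul_sum]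
          refine sum_congr rfl fun d _ => ?_
          by_cases h : d.fst = v
          · rw [if_pos h, if_pos h, Pi.smul_apply, smul_eq_mul]
          · rw [if_neg h, if_neg h, mul_zero]
      _ = 0 := by rw [h3, mul_zero]

/-- boundaries: the functions `d ↦ W d + W d.symm`, where `W` is constant on the faces -/
def bdy {V : Type} {G : SimpleGraph V} (R : Rotation G) :
    Submodule (ZMod 2) (G.Dart → ZMod 2) where
  carrier := {z | ∃ W : G.Dart → ZMod 2, (∀ d, W (R.face d) = W d) ∧ ∀ d, z d = W d + W d.symm}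
  add_mem' := by
    rintro a b ⟨W, h1, h2⟩ ⟨X, k1, k2⟩
    exact ⟨W + X, fun d => by simp [h1, k1], fun d => by simp only [Pi.add_apply, h2, k2]; ring⟩
  zero_mem' := ⟨0, fun _ => rfl, fun _ => by simp⟩
  smul_mem' := by
    rintro c a ⟨W, h1, h2⟩
    exact ⟨c • W, fun d => by simp [h1], fun d => by
      simp only [Pi.smul_apply, h2, smul_eq_mul]; ring⟩

/-- the mod 2 chain of a walk -/
def chain {V : Type} [DecidableEq V] {G : SimpleGraph V} {u v : V} (p : G.Walk u v) :
    G.Dart → ZMod 2 := fun d => ((p.darts.count d + p.darts.count d.symm : ℕ) : ZMod 2)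

/-- L1 -/
def St1 : Prop := ∀ (V : Type) [Fintype V] [DecidableEq V] (G : SimpleGraph V) [DecidableRel G.Adj] (S : Finset V), S.Nonempty →
  eS G S + 1 ≤ Module.finrank (ZMod 2) (cyc G S) + S.card

/-- L2 -/
def St2 : Prop := ∀ (V : Type) [Fintype V] [DecidableEq V] (G : SimpleGraph V) [DecidableRel G.Adj], G.Connected →
  Module.finrank (ZMod 2) (cyc G Finset.univ) + Fintype.card V ≤ Nat.card G.edgeSet + 1

/-- L3 -/
def St3 : Prop := ∀ (V : Type) [Fintype V] [DecidableEq V] (G : SimpleGraph V) [DecidableRel G.Adj] (R : Rotation G), G.Connected →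
  Nat.card R.Face ≤ Module.finrank (ZMod 2) (bdy R) + 1

/-- L4 -/
def St4 : Prop := ∀ (V : Type) [Fintype V] [DecidableEq V] (G : SimpleGraph V) [DecidableRel G.Adj] (R : Rotation G) (S : Finset V),
  Nonempty G.Dart →
  Module.finrank (ZMod 2) (cyc G S ⊓ bdy R : Submodule (ZMod 2) (G.Dart → ZMod 2)) + 1 ≤
    Nat.card (R.Reg S)

/-- L5 -/
def St5 : Prop := ∀ (V : Type) [Fintype V] [DecidableEq V] (G : SimpleGraph V) [DecidableRel G.Adj] (R : Rotation G),
  bdy R ≤ cyc G Finset.univ

/-- L6: homotopic walks have homologous chains and lengths of the same parity -/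
def St6 : Prop := ∀ (V : Type) [Fintype V] [DecidableEq V] (G : SimpleGraph V) [DecidableRel G.Adj] (R : Rotation G) (u v : V)
  (p q : G.Walk u v), R.Homotopic p q → chain p - chain q ∈ bdy R

/-- L7: the cycle space is spanned by cycles -/
def St7 : Prop := ∀ (V : Type) [Fintype V] [DecidableEq V] (G : SimpleGraph V) [DecidableRel G.Adj] (S : Finset V)
  (B : Submodule (ZMod 2) (G.Dart → ZMod 2)),
  (∀ (u : V) (p : G.Walk u u), p.IsCycle → (∀ v ∈ p.support, v ∈ S) → chain p ∈ B) → cyc G S ≤ B

end Pool.Agent.R740.EF
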